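import Pool.Agent.X160.Pl.Sum
set_option autoImplicit false

/-!
# The tube inequality for families with planar hairbrushes: one tube, one scale
-/

open MeasureTheory Set Metric
open scoped ENNReal NNReal

namespace Pool.Agent.X160.Pl

open Pool.Agent.TH705.RR

/-- The counting statement near a line. -/
def CountA (n : ℕ) (K : ℝ) : Prop := ∀ (δ : ℝ), 0 < δ → δ < 1 → ∀ {ι : Type} [Fintype ι]
    (e : ι → E n), (∀ i, ‖e i‖ = 1) → (∀ i j, i ≠ j → δ ≤ ‖e i - e j‖) → ∀ (w : E n), ‖w‖ = 1 →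
    ∀ (J : Finset ι) (y : ℝ), δ ≤ y → (∀ j ∈ J, sn w (e j) ≤ y) →
      (J.card : ℝ) ≤ K * (y / δ) ^ (n - 1)

/-- The counting statement near a plane. -/
def CountB (n : ℕ) (K : ℝ) : Prop := ∀ (δ : ℝ), 0 < δ → δ < 1 →
    ∀ {ι : Type} [Fintype ι] (e : ι → E n), (∀ i, ‖e i‖ = 1) →
    (∀ i j, i ≠ j → δ ≤ ‖e i - e j‖) → ∀ (w w' : E n), ‖w‖ = 1 → ∀ (J : Finset ι) (y h : ℝ),
    0 ≤ y → δ ≤ h → (∀ j ∈ J, sn w (e j) ≤ y) → (∀ j ∈ J, ∃ s t : ℝ, ‖e j - s • w - t • w'‖ ≤ h) →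
      (J.card : ℝ) ≤ K * ((y + h) / δ) * (h / δ) ^ (n - 2)

/-- The constant of the pair sum. -/
noncomputable def Cp (n : ℕ) (K0 K2 c1 ε : ℝ) : ℝ :=
  K0 * 2 ^ (n - 1) * c1 + 2 ^ n * vb n * 14 * 2 ^ n * (1 + 2 * (K2 * 2 ^ n) * (2 ^ ε / (2 ^ ε - 1)))

theorem Cp_nonneg {n : ℕ} {K0 K2 c1 ε : ℝ} (hK0 : 1 ≤ K0) (hK2 : 1 ≤ K2) (hc1 : 0 < c1)
    (hε : 0 < ε) : 0 ≤ Cp n K0 K2 c1 ε := by
  unfold Cp
  have hv := vb_pos n
  have h21 : (1 : ℝ) < 2 ^ ε := Real.one_lt_rpow (by norm_num) hε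
  have : 0 < (2 : ℝ) ^ ε - 1 := by linarith
  positivity

theorem pairsum {n : ℕ} (hn : 2 ≤ n) {K0 K2 c1 ε : ℝ} (hK0 : 1 ≤ K0) (hK2 : 1 ≤ K2)
    (hc1 : 0 < c1) (hε : 0 < ε) (hε1 : ε < 1) (hcount : CountA n K0) (hcount2 : CountB n K2)
    {δ : ℝ} (hδ : 0 < δ) (hδ1 : δ < 1) {ι : Type} [Fintype ι] (a e : ι → E n)
    (he : ∀ i, ‖e i‖ = 1) (hsep : ∀ i j, i ≠ j → δ ≤ ‖e i - e j‖) {N : ℝ}
    (hN : (Fintype.card ι : ℝ) ≤ N) (i : ι) (w : E n) {K r : ℝ} (hK : 1 ≤ K) (hr : 0 < r)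
    (hrN : (1 / r) ^ (n - 1) ≤ N) (hr2 : r ≤ 2) {S : Set (E n)}
    (hS : S ⊆ tube δ (a i) (e i)) (hSv : volume S ≤ ENNReal.ofReal (c1 * (δ ^ (n - 1) * r)))
    (J : Finset ι) (hJ : ∀ j ∈ J, (tube δ (a j) (e j) ∩ S).Nonempty →
      ∃ s t : ℝ, ‖e j - s • e i - t • w‖ ≤ K * δ / r) :
    ∑ j ∈ J, volume (tube δ (a j) (e j) ∩ S) ≤
      ENNReal.ofReal (Cp n K0 K2 c1 ε * K ^ (n - 1) * (δ ^ (n - 1) * r) *
        ((1 / r) ^ (n - 1) * (N / (1 / r) ^ (n - 1)) ^ ε)) := by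
  classical
  have hv := vb_pos n
  set B : ℝ := (1 / r) ^ (n - 1) with hB
  have hB0 : 0 < B := by positivity
  have hN0 : 0 < N := by linarith
  set Q : ℝ := B * (N / B) ^ ε with hQ
  have hNB : 1 ≤ N / B := by rwa [le_div_iff₀ hB0, one_mul]
  have hBQ : B ≤ Q := by
    rw [hQ]
    have := Real.one_le_rpow hNB hε.le
    nlinarith
  set J' := J.filter (fun j => (tube δ (a j) (e j) ∩ S).Nonempty) with hJ'
  have h1 : ∑ j ∈ J, volume (tube δ (a j) (e j) ∩ S) = ∑ j ∈ J', volume (tube δ (a j) (e j) ∩ S) := by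
    rw [hJ', Finset.sum_filter]
    apply Finset.sum_congr rfl
    intro j _
    split_ifs with h
    · rfl
    · rw [Set.not_nonempty_iff_eq_empty] at h
      rw [h, measure_empty]
  have hpl : ∀ j ∈ J', ∃ s t : ℝ, ‖e j - s • e i - t • w‖ ≤ K * δ / r := by
    intro j hj
    rw [hJ', Finset.mem_filter] at hj
    exact hJ j hj.1 hj.2
  rw [h1, ← Finset.sum_filter_add_sum_filter_not J' (fun j => sn (e i) (e j) ≤ 2 * δ / r)]
  set J1 := J'.filter (fun j => sn (e i) (e j) ≤ 2 * δ / r) with hJ1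
  set J2 := J'.filter (fun j => ¬ sn (e i) (e j) ≤ 2 * δ / r) with hJ2
  -- near
  have hnear : ∑ j ∈ J1, volume (tube δ (a j) (e j) ∩ S) ≤
      ENNReal.ofReal (K0 * 2 ^ (n - 1) * c1 * (δ ^ (n - 1) * r) * B) := by
    have hc : (J1.card : ℝ) ≤ K0 * 2 ^ (n - 1) * B := by
      have h2 := hcount δ hδ hδ1 e he hsep (e i) (he i) J1 (2 * δ / r) (by
        rw [le_div_iff₀ hr]; nlinarith) (fun j hj => (Finset.mem_filter.1 hj).2)
      have h3 : 2 * δ / r / δ = 2 * (1 / r) := by field_simp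
      rw [h3, mul_pow] at h2
      linarith
    calc ∑ j ∈ J1, volume (tube δ (a j) (e j) ∩ S)
        ≤ ∑ j ∈ J1, ENNReal.ofReal (c1 * (δ ^ (n - 1) * r)) := by
          apply Finset.sum_le_sum
          intro j _
          exact (measure_mono inter_subset_right).trans hSv
      _ = ENNReal.ofReal (J1.card * (c1 * (δ ^ (n - 1) * r))) := by
          rw [Finset.sum_const, nsmul_eq_mul, ← ENNReal.ofReal_natCast,
            ← ENNReal.ofReal_mul (by positivity)]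
      _ ≤ _ := by
          apply ENNReal.ofReal_le_ofReal
          calc (J1.card : ℝ) * (c1 * (δ ^ (n - 1) * r))
              ≤ (K0 * 2 ^ (n - 1) * B) * (c1 * (δ ^ (n - 1) * r)) := by gcongr
            _ = _ := by ring
  -- far
  set z : ι → ℝ := fun j => r * sn (e i) (e j) / (2 * δ) with hz
  have hz1 : ∀ j ∈ J2, 1 ≤ z j := by
    intro j hj
    have h2 := (Finset.mem_filter.1 hj).2
    push Not at h2
    rw [div_lt_iff₀ hr] at h2
    simp only [hz]
    rw [le_div_iff₀ (by positivity)]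
    linarith
  have hcz : ∀ t, 1 ≤ t → ((J2.filter (fun j => z j ≤ t)).card : ℝ) ≤
      (K2 * 2 ^ n * K ^ (n - 1)) * B * t := by
    intro t ht
    have h2 := hcount2 δ hδ hδ1 e he hsep (e i) w (he i) (J2.filter (fun j => z j ≤ t))
      (2 * δ * t / r) (2 * K * δ / r) (by positivity) (by
        rw [le_div_iff₀ hr]
        nlinarith [mul_nonneg (sub_nonneg.2 hK) hδ.le]) (fun j hj => by
        have h3 := (Finset.mem_filter.1 hj).2
        simp only [hz] at h3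
        rw [div_le_iff₀ (by positivity)] at h3
        rw [le_div_iff₀ hr]
        linarith) (fun j hj => by
        have h3 := (Finset.mem_filter.1 hj).1
        obtain ⟨s, t, hst⟩ := hpl j (Finset.mem_filter.1 h3).1
        refine ⟨s, t, hst.trans ?_⟩
        gcongr
        nlinarith)
    obtain ⟨m, rfl⟩ : ∃ m, n = m + 2 := ⟨n - 2, by omega⟩
    have e1 : m + 2 - 1 = m + 1 := by omega
    simp only [Nat.add_sub_cancel, e1] at h2 hB ⊢
    have h3 : (2 * δ * t / r + 2 * K * δ / r) / δ = (2 * t + 2 * K) * (1 / r) := by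
      field_simp
    have h4 : 2 * K * δ / r / δ = 2 * K * (1 / r) := by field_simp
    rw [h3, h4] at h2
    refine h2.trans ?_
    have h5 : 2 * t + 2 * K ≤ 4 * K * t := by nlinarith [mul_nonneg (sub_nonneg.2 hK) (sub_nonneg.2 ht)]
    calc K2 * ((2 * t + 2 * K) * (1 / r)) * (2 * K * (1 / r)) ^ m
        ≤ K2 * ((4 * K * t) * (1 / r)) * (2 * K * (1 / r)) ^ m := by gcongr
      _ = (K2 * 2 ^ (m + 2) * K ^ (m + 1)) * B * t := by
          rw [hB, mul_pow, mul_pow, pow_succ, pow_succ, pow_succ, pow_succ (1 / r)]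
          ring
  have hcJ2 : (J2.card : ℝ) ≤ N := by
    refine le_trans ?_ hN
    exact_mod_cast Finset.card_le_univ _
  have hhs := harm_sum J2 z (K := K2 * 2 ^ n * K ^ (n - 1)) (B := B) (N := N) (ε := ε)
    (by positivity) hB0 hrN hε hcJ2 hz1 hcz
  have h21 : (1 : ℝ) < 2 ^ ε := Real.one_lt_rpow (by norm_num) hε
  have h21' : 0 < (2 : ℝ) ^ ε - 1 := by linarith
  have hfar : ∑ j ∈ J2, volume (tube δ (a j) (e j) ∩ S) ≤
      ENNReal.ofReal (2 ^ n * vb n * 14 * 2 ^ n * (δ ^ (n - 1) * r) *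
        ((1 + 2 * (K2 * 2 ^ n * K ^ (n - 1)) * (2 ^ ε / (2 ^ ε - 1))) * Q)) := by
    calc ∑ j ∈ J2, volume (tube δ (a j) (e j) ∩ S)
        ≤ ∑ j ∈ J2, ENNReal.ofReal (2 ^ n * vb n * 14 * 2 ^ n * (δ ^ (n - 1) * r) * (z j)⁻¹) := by
          apply Finset.sum_le_sum
          intro j hj
          have hzj := hz1 j hj
          have hsn : 0 < sn (e i) (e j) := by
            by_contra hcon
            push Not at hcon
            have : z j ≤ 0 := by
              simp only [hz]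
              apply div_nonpos_of_nonpos_of_nonneg
              · nlinarith
              · positivity
            linarith
          have h2 : volume (tube δ (a j) (e j) ∩ S) ≤ volume (tube δ (a i) (e i) ∩ tube δ (a j) (e j)) :=
            measure_mono (fun x hx => ⟨hS hx.2, hx.1⟩)
          refine h2.trans ((vol_inter (by omega) hδ (he i) (he j) hsn).trans ?_)
          apply ENNReal.ofReal_le_ofReal
          have h3 : δ ^ n / sn (e i) (e j) = δ ^ (n - 1) * r * (z j)⁻¹ * (1 / 2) := by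
            obtain ⟨m, rfl⟩ : ∃ m, n = m + 1 := ⟨n - 1, by omega⟩
            rw [Nat.add_sub_cancel]
            simp only [hz]
            rw [pow_succ]
            field_simp
          rw [h3]
          have h4 : 0 ≤ 2 ^ n * vb n * 14 * 2 ^ n * (δ ^ (n - 1) * r * (z j)⁻¹) := by positivity
          nlinarith
      _ = ENNReal.ofReal (2 ^ n * vb n * 14 * 2 ^ n * (δ ^ (n - 1) * r) * ∑ j ∈ J2, (z j)⁻¹) := by
          rw [← ENNReal.ofReal_sum_of_nonneg, Finset.mul_sum]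
          intro j hj
          have hzj := hz1 j hj
          positivity
      _ ≤ _ := by
          apply ENNReal.ofReal_le_ofReal
          gcongr
  refine (add_le_add hnear hfar).trans ?_
  rw [← ENNReal.ofReal_add (by positivity) (by positivity)]
  apply ENNReal.ofReal_le_ofReal
  have hKn : 1 ≤ K ^ (n - 1) := one_le_pow₀ hK
  have hQ0 : 0 ≤ Q := hB0.le.trans hBQ
  set D := δ ^ (n - 1) * r with hD
  have hD0 : 0 < D := by positivity
  set F : ℝ := 2 ^ ε / (2 ^ ε - 1) with hF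
  have hF0 : 0 < F := by positivity
  have g1 : K0 * 2 ^ (n - 1) * c1 * D * B ≤ K0 * 2 ^ (n - 1) * c1 * K ^ (n - 1) * D * Q := by
    calc K0 * 2 ^ (n - 1) * c1 * D * B = K0 * 2 ^ (n - 1) * c1 * 1 * D * B := by ring
      _ ≤ _ := by gcongr
  have g2 : 2 ^ n * vb n * 14 * 2 ^ n * D * ((1 + 2 * (K2 * 2 ^ n * K ^ (n - 1)) * F) * Q) ≤
      2 ^ n * vb n * 14 * 2 ^ n * D * ((K ^ (n - 1) + 2 * (K2 * 2 ^ n * K ^ (n - 1)) * F) * Q) := by
    gcongr
  calc K0 * 2 ^ (n - 1) * c1 * D * B +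
        2 ^ n * vb n * 14 * 2 ^ n * D * ((1 + 2 * (K2 * 2 ^ n * K ^ (n - 1)) * F) * Q)
      ≤ K0 * 2 ^ (n - 1) * c1 * K ^ (n - 1) * D * Q +
        2 ^ n * vb n * 14 * 2 ^ n * D * ((K ^ (n - 1) + 2 * (K2 * 2 ^ n * K ^ (n - 1)) * F) * Q) :=
        add_le_add g1 g2
    _ = Cp n K0 K2 c1 ε * K ^ (n - 1) * D * Q := by
        unfold Cp
        ring

end Pool.Agent.X160.Pl
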