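import Pool.Agent.X160.Pl.Main
set_option autoImplicit false

/-!
# Planes spanned by `e` and `J e`
-/

open MeasureTheory Set Metric
open scoped ENNReal NNReal

namespace Pool.Agent.X160.Pl

open Pool.Agent.TH705.RR

section Alg

variable {V : Type*} [NormedAddCommGroup V] [NormedSpace ℝ V]

/-- Two multiples that are close. -/
theorem ray {f f' y : V} {α α' M η : ℝ} (hM : 1 ≤ M) (hff : ‖f'‖ ≤ M * ‖f‖)
    (h1 : ‖y - α • f‖ ≤ η) (h2 : ‖y - α' • f'‖ ≤ η) : ∃ l : ℝ, |α| * ‖f' - l • f‖ ≤ 4 * M * η := by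
  have hη : 0 ≤ η := (norm_nonneg _).trans h1
  have h3 : ‖α' • f' - α • f‖ ≤ 2 * η := by
    have : α' • f' - α • f = (y - α • f) - (y - α' • f') := by abel
    rw [this]
    refine (norm_sub_le _ _).trans ?_
    linarith
  by_cases hα : α = 0
  · refine ⟨0, ?_⟩
    rw [hα, abs_zero, zero_mul]
    positivity
  have hα0 : 0 < |α| := abs_pos.2 hα
  by_cases h4 : |α| ≤ 2 * M * |α'|
  · have hα'0 : 0 < |α'| := by
      by_contra hcon
      have : |α'| = 0 := le_antisymm (not_lt.1 hcon) (abs_nonneg _)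
      rw [this, mul_zero] at h4
      linarith
    have hα' : α' ≠ 0 := abs_pos.1 hα'0
    refine ⟨α / α', ?_⟩
    have h5 : α' • (f' - (α / α') • f) = α' • f' - α • f := by
      rw [smul_sub, smul_smul, mul_div_cancel₀ _ hα']
    have h6 : |α'| * ‖f' - (α / α') • f‖ ≤ 2 * η := by
      rw [← Real.norm_eq_abs, ← norm_smul, h5]
      exact h3
    calc |α| * ‖f' - (α / α') • f‖ ≤ 2 * M * |α'| * ‖f' - (α / α') • f‖ := by gcongr
      _ = 2 * M * (|α'| * ‖f' - (α / α') • f‖) := by ring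
      _ ≤ 2 * M * (2 * η) := by gcongr
      _ = _ := by ring
  · push Not at h4
    refine ⟨0, ?_⟩
    rw [zero_smul, sub_zero]
    have h5 : |α| * ‖f‖ ≤ |α'| * ‖f'‖ + 2 * η := by
      have h6 : α • f = α' • f' - (α' • f' - α • f) := by abel
      calc |α| * ‖f‖ = ‖α • f‖ := by rw [norm_smul, Real.norm_eq_abs]
        _ = ‖α' • f' - (α' • f' - α • f)‖ := by rw [← h6]
        _ ≤ ‖α' • f'‖ + ‖α' • f' - α • f‖ := norm_sub_le _ _
        _ ≤ _ := by rw [norm_smul, Real.norm_eq_abs]; linarith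
    have h7 : |α'| * ‖f'‖ ≤ |α| * ‖f‖ / 2 := by
      have h8 : |α'| * ‖f'‖ ≤ |α'| * (M * ‖f‖) := by gcongr
      have h9 : 2 * (|α'| * (M * ‖f‖)) ≤ |α| * ‖f‖ := by
        calc 2 * (|α'| * (M * ‖f‖)) = (2 * M * |α'|) * ‖f‖ := by ring
          _ ≤ _ := by gcongr
      linarith
    have h10 : |α| * ‖f‖ ≤ 4 * η := by linarith
    calc |α| * ‖f'‖ ≤ |α| * (M * ‖f‖) := by gcongr
      _ = M * (|α| * ‖f‖) := by ring
      _ ≤ M * (4 * η) := by gcongr
      _ = _ := by ring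

/-- `J² = -1`. -/
theorem cplane {J : V →ₗ[ℝ] V} (hJ : ∀ v, J (J v) = -v) {κ : ℝ} (hκ : 1 ≤ κ)
    (hJn : ∀ v, ‖J v‖ ≤ κ * ‖v‖) {x e e' : V} (he' : ‖e'‖ = 1) {σ t σ' t' η : ℝ}
    (h1 : ‖x - σ • e - t • J e‖ ≤ η) (h2 : ‖x - σ' • e' - t' • J e'‖ ≤ η) :
    ∃ s u : ℝ, ‖x‖ * ‖e' - s • e - u • J e‖ ≤ 12 * κ ^ 2 * η := by
  have hη : 0 ≤ η := (norm_nonneg _).trans h1
  set D : ℝ := |σ'| + |t'| with hD
  have hD0 : 0 ≤ D := by positivity
  have hx : ‖x‖ ≤ κ * D + η := by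
    have h3 : x = (x - σ' • e' - t' • J e') + (σ' • e' + t' • J e') := by abel
    calc ‖x‖ = ‖(x - σ' • e' - t' • J e') + (σ' • e' + t' • J e')‖ := by rw [← h3]
      _ ≤ ‖x - σ' • e' - t' • J e'‖ + ‖σ' • e' + t' • J e'‖ := norm_add_le _ _
      _ ≤ η + (‖σ' • e'‖ + ‖t' • J e'‖) := by gcongr; exact norm_add_le _ _
      _ ≤ η + (κ * |σ'| + κ * |t'|) := by
          rw [norm_smul, norm_smul, he', Real.norm_eq_abs, Real.norm_eq_abs]
          have h4 := hJn e'
          rw [he', mul_one] at h4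
          have h5 : |t'| * ‖J e'‖ ≤ |t'| * κ := by gcongr
          have h6 : |σ'| ≤ κ * |σ'| := by nlinarith [abs_nonneg σ']
          linarith
      _ = _ := by rw [hD]; ring
  by_cases hDη : D ≤ η
  · refine ⟨0, 0, ?_⟩
    rw [zero_smul, zero_smul, sub_zero, sub_zero, he', mul_one]
    have g1 : κ * D ≤ κ * η := by gcongr
    have g2 : κ ≤ κ ^ 2 := by nlinarith
    have g3 : κ * η ≤ κ ^ 2 * η := by gcongr
    have g4 : 1 * η ≤ κ * η := by gcongr
    linarith
  · push Not at hDη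
    have hDpos : 0 < D := hη.trans_lt hDη
    set Q : ℝ := σ' ^ 2 + t' ^ 2 with hQ
    have hQD : D ^ 2 ≤ 2 * Q := by
      rw [hD, hQ]
      nlinarith [sq_nonneg (|σ'| - |t'|), sq_abs σ', sq_abs t']
    have hQ0 : 0 < Q := by nlinarith
    refine ⟨(σ' * σ + t' * t) / Q, (σ' * t - t' * σ) / Q, ?_⟩
    set y : V := (x - σ • e - t • J e) - (x - σ' • e' - t' • J e') with hy
    have hyn : ‖y‖ ≤ 2 * η := by
      rw [hy]
      refine (norm_sub_le _ _).trans ?_
      linarith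
    -- `Q e' = (σ' - t' J) ((σ + t J) e + y)`
    have hid : Q • (e' - ((σ' * σ + t' * t) / Q) • e - ((σ' * t - t' * σ) / Q) • J e) =
        σ' • y - t' • J y := by
      have e1 : Q * ((σ' * σ + t' * t) / Q) = σ' * σ + t' * t := by field_simp
      have e2 : Q * ((σ' * t - t' * σ) / Q) = σ' * t - t' * σ := by field_simp
      rw [smul_sub, smul_sub, smul_smul, smul_smul, e1, e2]
      have e3 : y = σ' • e' + t' • J e' - σ • e - t • J e := by rw [hy]; abel
      rw [e3]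
      simp only [map_sub, map_add, map_smul, hJ]
      rw [hQ]
      module
    have hR : Q * ‖e' - ((σ' * σ + t' * t) / Q) • e - ((σ' * t - t' * σ) / Q) • J e‖ ≤
        κ * D * (2 * η) := by
      have h3 : Q * ‖e' - ((σ' * σ + t' * t) / Q) • e - ((σ' * t - t' * σ) / Q) • J e‖ =
          ‖σ' • y - t' • J y‖ := by
        rw [← hid, norm_smul, Real.norm_eq_abs, abs_of_pos hQ0]
      rw [h3]
      calc ‖σ' • y - t' • J y‖ ≤ ‖σ' • y‖ + ‖t' • J y‖ := norm_sub_le _ _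
        _ ≤ |σ'| * ‖y‖ + |t'| * (κ * ‖y‖) := by
            rw [norm_smul, norm_smul, Real.norm_eq_abs, Real.norm_eq_abs]
            gcongr
            exact hJn y
        _ ≤ κ * D * ‖y‖ := by
            rw [hD]
            have : |σ'| * ‖y‖ ≤ κ * (|σ'| * ‖y‖) := by
              have h5 : 0 ≤ |σ'| * ‖y‖ := by positivity
              nlinarith
            nlinarith
        _ ≤ _ := by gcongr
    set X := ‖e' - ((σ' * σ + t' * t) / Q) • e - ((σ' * t - t' * σ) / Q) • J e‖ with hX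
    have hX0 : 0 ≤ X := norm_nonneg _
    have h4 : D * X ≤ 4 * κ * η := by
      have h5 : D ^ 2 * X ≤ 2 * (κ * D * (2 * η)) := by
        calc D ^ 2 * X ≤ 2 * Q * X := by gcongr
          _ = 2 * (Q * X) := by ring
          _ ≤ _ := by gcongr
      have h6 : D * (D * X) ≤ D * (4 * κ * η) := by nlinarith
      exact le_of_mul_le_mul_left h6 hDpos
    have h7 : ‖x‖ ≤ 2 * κ * D := by nlinarith
    calc ‖x‖ * X ≤ 2 * κ * D * X := by gcongr
      _ = 2 * κ * (D * X) := by ring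
      _ ≤ 2 * κ * (4 * κ * η) := by gcongr
      _ ≤ _ := by nlinarith [mul_nonneg (mul_nonneg (by linarith : (0:ℝ) ≤ κ) (by linarith : (0:ℝ) ≤ κ)) hη]

/-- `J² = 1`, in the half of the directions where `‖e + J e‖ ≤ ‖e - J e‖`. -/
theorem rplane {J : V →ₗ[ℝ] V} (hJ : ∀ v, J (J v) = v) {κ : ℝ} (hκ : 1 ≤ κ)
    (hJn : ∀ v, ‖J v‖ ≤ κ * ‖v‖) {x e e' : V} (he : ‖e‖ = 1) (he' : ‖e'‖ = 1)
    (hh : ‖e + J e‖ ≤ ‖e - J e‖) (hr : ‖e' + J e'‖ ≤ ‖e + J e‖) {σ t σ' t' η : ℝ}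
    (h1 : ‖x - σ • e - t • J e‖ ≤ η) (h2 : ‖x - σ' • e' - t' • J e'‖ ≤ η) :
    (∃ s u : ℝ, ‖x - (-t) • (e - J e)‖ * ‖e' - s • e - u • J e‖ ≤ 32 * κ ^ 2 * η) ∨
    (∃ s u : ℝ, ‖x - t • (e + J e)‖ * ‖e' - s • e - u • J e‖ ≤ 32 * κ ^ 2 * η) := by
  have hη : 0 ≤ η := (norm_nonneg _).trans h1
  have hκ0 : 0 < κ := by linarith
  set α : ℝ := σ + t with hα
  set β : ℝ := σ - t with hβ
  have hop : ∀ v : V, ‖v + J v‖ ≤ 2 * κ * ‖v‖ := by
    intro v
    refine (norm_add_le _ _).trans ?_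
    have := hJn v
    nlinarith [norm_nonneg v]
  have hom : ∀ v : V, ‖v - J v‖ ≤ 2 * κ * ‖v‖ := by
    intro v
    refine (norm_sub_le _ _).trans ?_
    have := hJn v
    nlinarith [norm_nonneg v]
  have hp1 : ‖(x + J x) - α • (e + J e)‖ ≤ 2 * κ * η := by
    have h3 : (x + J x) - α • (e + J e) = (x - σ • e - t • J e) + J (x - σ • e - t • J e) := by
      simp only [map_sub, map_smul, hJ]
      rw [hα]
      module
    rw [h3]
    exact (hop _).trans (by gcongr)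
  have hp2 : ‖(x + J x) - (σ' + t') • (e' + J e')‖ ≤ 2 * κ * η := by
    have h3 : (x + J x) - (σ' + t') • (e' + J e') =
        (x - σ' • e' - t' • J e') + J (x - σ' • e' - t' • J e') := by
      simp only [map_sub, map_smul, hJ]
      module
    rw [h3]
    exact (hop _).trans (by gcongr)
  have hq1 : ‖(x - J x) - β • (e - J e)‖ ≤ 2 * κ * η := by
    have h3 : (x - J x) - β • (e - J e) = (x - σ • e - t • J e) - J (x - σ • e - t • J e) := by
      simp only [map_sub, map_smul, hJ]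
      rw [hβ]
      module
    rw [h3]
    exact (hom _).trans (by gcongr)
  have hq2 : ‖(x - J x) - (σ' - t') • (e' - J e')‖ ≤ 2 * κ * η := by
    have h3 : (x - J x) - (σ' - t') • (e' - J e') =
        (x - σ' • e' - t' • J e') - J (x - σ' • e' - t' • J e') := by
      simp only [map_sub, map_smul, hJ]
      module
    rw [h3]
    exact (hom _).trans (by gcongr)
  have hge : 1 ≤ ‖e - J e‖ := by
    have h3 : (2 : ℝ) • e = (e + J e) + (e - J e) := by module
    have h4 : ‖(2 : ℝ) • e‖ = 2 := by rw [norm_smul, he]; norm_num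
    have h5 := norm_add_le (e + J e) (e - J e)
    rw [← h3, h4] at h5
    linarith
  have hM : ‖e' - J e'‖ ≤ 2 * κ * ‖e - J e‖ := by
    have := hom e'
    rw [he', mul_one] at this
    nlinarith
  obtain ⟨l1, hl1⟩ := ray (M := 1) le_rfl (by rwa [one_mul]) hp1 hp2
  obtain ⟨l2, hl2⟩ := ray (M := 2 * κ) (by linarith) hM hq1 hq2
  have key : ∀ m : ℝ, 0 ≤ m → m ≤ |α| → m ≤ |β| → ∃ s u : ℝ, m * ‖e' - s • e - u • J e‖ ≤
      16 * κ ^ 2 * η := by
    intro m hm0 hmα hmβ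
    refine ⟨(l1 + l2) / 2, (l1 - l2) / 2, ?_⟩
    have h3 : e' - ((l1 + l2) / 2) • e - ((l1 - l2) / 2) • J e =
        (1 / 2 : ℝ) • (((e' + J e') - l1 • (e + J e)) + ((e' - J e') - l2 • (e - J e))) := by
      module
    rw [h3, norm_smul]
    have h4 : ‖(1 / 2 : ℝ)‖ = 1 / 2 := by norm_num
    rw [h4]
    have h5 := norm_add_le ((e' + J e') - l1 • (e + J e)) ((e' - J e') - l2 • (e - J e))
    have h6 : m * ‖(e' + J e') - l1 • (e + J e)‖ ≤ 4 * 1 * (2 * κ * η) := by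
      refine le_trans ?_ hl1
      gcongr
    have h7 : m * ‖(e' - J e') - l2 • (e - J e)‖ ≤ 4 * (2 * κ) * (2 * κ * η) := by
      refine le_trans ?_ hl2
      gcongr
    have h8 : 0 ≤ κ * η := by positivity
    calc m * (1 / 2 * ‖(e' + J e') - l1 • (e + J e) + ((e' - J e') - l2 • (e - J e))‖)
        ≤ m * (1 / 2 * (‖(e' + J e') - l1 • (e + J e)‖ + ‖(e' - J e') - l2 • (e - J e)‖)) := by
          gcongr
      _ = (m * ‖(e' + J e') - l1 • (e + J e)‖ + m * ‖(e' - J e') - l2 • (e - J e)‖) / 2 := by ring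
      _ ≤ (4 * 1 * (2 * κ * η) + 4 * (2 * κ) * (2 * κ * η)) / 2 := by gcongr
      _ ≤ _ := by nlinarith
  have fin : ∀ (m : ℝ) (z : V), 0 ≤ m → m ≤ |α| → m ≤ |β| → ‖z‖ ≤ m + η →
      ∃ s u : ℝ, ‖z‖ * ‖e' - s • e - u • J e‖ ≤ 32 * κ ^ 2 * η := by
    intro m z hm0 hmα hmβ hz
    by_cases hmη : m ≤ η
    · refine ⟨0, 0, ?_⟩
      rw [zero_smul, zero_smul, sub_zero, sub_zero, he', mul_one]
      have g2 : 1 ≤ κ ^ 2 := one_le_pow₀ hκ
      have g3 : 1 * η ≤ κ ^ 2 * η := by gcongr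
      linarith
    · push Not at hmη
      obtain ⟨s, u, hsu⟩ := key m hm0 hmα hmβ
      refine ⟨s, u, ?_⟩
      calc ‖z‖ * ‖e' - s • e - u • J e‖ ≤ (2 * m) * ‖e' - s • e - u • J e‖ := by
            gcongr
            linarith
        _ = 2 * (m * ‖e' - s • e - u • J e‖) := by ring
        _ ≤ 2 * (16 * κ ^ 2 * η) := by gcongr
        _ = _ := by ring
  rcases le_total |α| |β| with h | h
  · left
    apply fin |α| _ (abs_nonneg _) le_rfl h
    have h3 : x - (-t) • (e - J e) = α • e + (x - σ • e - t • J e) := by rw [hα]; module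
    rw [h3]
    refine (norm_add_le _ _).trans ?_
    rw [norm_smul, he, mul_one, Real.norm_eq_abs]
    linarith
  · right
    apply fin |β| _ (abs_nonneg _) h le_rfl
    have h3 : x - t • (e + J e) = β • e + (x - σ • e - t • J e) := by rw [hβ]; module
    rw [h3]
    refine (norm_add_le _ _).trans ?_
    rw [norm_smul, he, mul_one, Real.norm_eq_abs]
    linarith

end Alg

/-- Planes through a line. -/
theorem lplane {n : ℕ} {u x e e' : E n} (hu : ‖u‖ = 1) (he : ‖e‖ = 1) (he' : ‖e'‖ = 1)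
    (hr : sn u e' ≤ sn u e) {σ t σ' t' η : ℝ}
    (h1 : ‖x - σ • e - t • u‖ ≤ η) (h2 : ‖x - σ' • e' - t' • u‖ ≤ η) :
    ∃ s v : ℝ, ‖x - t • u‖ * ‖e' - s • e - v • u‖ ≤ 8 * η := by
  have hη : 0 ≤ η := (norm_nonneg _).trans h1
  have hperp : ∀ y : E n, ‖y - (inner ℝ u y) • u‖ ≤ ‖y‖ := by
    intro y
    have h3 : ‖y - (inner ℝ u y) • u‖ ^ 2 ≤ ‖y‖ ^ 2 := by
      rw [norm_sub_sq_real, norm_smul, hu, mul_one, inner_smul_right, real_inner_comm,
        Real.norm_eq_abs, sq_abs]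
      nlinarith [sq_nonneg (inner ℝ u y : ℝ)]
    exact le_of_sq_le_sq h3 (norm_nonneg _)
  have hq1 : ‖(x - (inner ℝ u x) • u) - σ • (e - (inner ℝ u e) • u)‖ ≤ η := by
    have h3 : (x - (inner ℝ u x) • u) - σ • (e - (inner ℝ u e) • u) =
        (x - σ • e - t • u) - (inner ℝ u (x - σ • e - t • u)) • u := by
      rw [inner_sub_right, inner_sub_right, inner_smul_right, inner_smul_right,
        real_inner_self_eq_norm_sq, hu]
      module
    rw [h3]
    exact (hperp _).trans h1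
  have hq2 : ‖(x - (inner ℝ u x) • u) - σ' • (e' - (inner ℝ u e') • u)‖ ≤ η := by
    have h3 : (x - (inner ℝ u x) • u) - σ' • (e' - (inner ℝ u e') • u) =
        (x - σ' • e' - t' • u) - (inner ℝ u (x - σ' • e' - t' • u)) • u := by
      rw [inner_sub_right, inner_sub_right, inner_smul_right, inner_smul_right,
        real_inner_self_eq_norm_sq, hu]
      module
    rw [h3]
    exact (hperp _).trans h2
  obtain ⟨l, hl⟩ := ray (M := 1) le_rfl (by
    rw [one_mul, perp_norm hu he, perp_norm hu he']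
    exact hr) hq1 hq2
  have hz : ‖x - t • u‖ ≤ |σ| + η := by
    have h3 : x - t • u = σ • e + (x - σ • e - t • u) := by module
    rw [h3]
    refine (norm_add_le _ _).trans ?_
    rw [norm_smul, he, mul_one, Real.norm_eq_abs]
    linarith
  by_cases hση : |σ| ≤ η
  · refine ⟨0, 0, ?_⟩
    rw [zero_smul, zero_smul, sub_zero, sub_zero, he', mul_one]
    linarith
  · push Not at hση
    refine ⟨l, inner ℝ u e' - l * inner ℝ u e, ?_⟩
    have h3 : e' - l • e - (inner ℝ u e' - l * inner ℝ u e) • u =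
        (e' - (inner ℝ u e') • u) - l • (e - (inner ℝ u e) • u) := by
      module
    rw [h3]
    calc ‖x - t • u‖ * ‖(e' - (inner ℝ u e') • u) - l • (e - (inner ℝ u e) • u)‖
        ≤ (2 * |σ|) * ‖(e' - (inner ℝ u e') • u) - l • (e - (inner ℝ u e) • u)‖ := by
          gcongr
          linarith
      _ = 2 * (|σ| * ‖(e' - (inner ℝ u e') • u) - l • (e - (inner ℝ u e) • u)‖) := by ring
      _ ≤ 2 * (4 * 1 * η) := by gcongr
      _ = _ := by ring

end Pool.Agent.X160.Pl
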