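import Pool.Agent.X160.Pl.Ex
set_option autoImplicit false

/-!
# Final form of the inequality
-/

open MeasureTheory Set Metric
open scoped ENNReal NNReal

namespace Pool.Agent.X160.Pl

open Pool.Agent.TH705.RR

theorem mm_le {n : ℕ} {ι : Type} [Fintype ι] (δ : ℝ) (a e : ι → E n) (x : E n) :
    mm δ a e x ≤ (Fintype.card ι : ℝ≥0∞) := by
  classical
  unfold mm
  calc _ ≤ ∑ _j : ι, (1 : ℝ≥0∞) := by
        apply Finset.sum_le_sum
        intro j _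
        apply indicator_le_self'
        intro _ _
        exact zero_le
    _ = _ := by
        rw [Finset.sum_const, nsmul_eq_mul, mul_one, Finset.card_univ]

/-- The hypothesis of planar hairbrushes. -/
def PH {n b : ℕ} {ι : Type} (K δ : ℝ) (a e w : ι → E n) (P : ι → Fin b → E n) (ρ : ι → ℝ) : Prop :=
  ∀ i j, ρ j ≤ ρ i → ∀ x ∈ tube δ (a i) (e i) ∩ tube δ (a j) (e j),
      ∃ k, ∃ s t : ℝ, ‖x - P i k‖ * ‖e j - s • e i - t • w i‖ ≤ K * δ

theorem core_all {n : ℕ} (hn : 3 ≤ n) {q : ℝ} (hq1 : 1 + 1 / ((n - 1 : ℕ) : ℝ) < q)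
    (b : ℕ) : ∃ C : ℝ, 0 < C ∧ ∀ K : ℝ, 1 ≤ K → ∀ δ : ℝ, 0 < δ → δ < 1 →
    ∀ (ι : Type) [Fintype ι] (a e w : ι → E n) (P : ι → Fin b → E n) (ρ : ι → ℝ),
    (∀ i, ‖e i‖ = 1) → (∀ i j, i ≠ j → δ ≤ ‖e i - e j‖) → PH K δ a e w P ρ →
    ∫⁻ x, mm δ a e x ^ q ≤ ENNReal.ofReal (C * K ^ (n - 1) * δ ^ (n - 1) *
        (Fintype.card ι : ℝ) ^ (q - 1 / ((n - 1 : ℕ) : ℝ))) := by
  rcases le_total q 2 with hq2 | hq2
  · obtain ⟨C, hC, h⟩ := core hn hq1 hq2 b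
    exact ⟨C, hC, fun K hK δ hδ hδ1 ι _ a e w P ρ he hsep hpl => h K hK δ hδ hδ1 ι a e w P ρ he hsep hpl⟩
  · have hn1 : (2 : ℝ) ≤ ((n - 1 : ℕ) : ℝ) := by exact_mod_cast (by omega : 2 ≤ n - 1)
    obtain ⟨C, hC, h⟩ := core hn (q := 2) (by
      have : 1 / ((n - 1 : ℕ) : ℝ) ≤ 1 / 2 := by
        apply one_div_le_one_div_of_le (by norm_num) hn1
      linarith) le_rfl b
    refine ⟨C, hC, fun K hK δ hδ hδ1 ι _ a e w P ρ he hsep hpl => ?_⟩
    have h1 := h K hK δ hδ hδ1 ι a e w P ρ he hsep hpl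
    rcases isEmpty_or_nonempty ι with hι | hι
    · have : ∀ x, mm δ a e x ^ q = 0 := by
        intro x
        unfold mm
        rw [Finset.univ_eq_empty, Finset.sum_empty, ENNReal.zero_rpow_of_pos (by linarith)]
      simp [this]
    set N : ℝ := (Fintype.card ι : ℝ) with hN
    have hN1 : 1 ≤ N := by
      rw [hN]
      exact_mod_cast Fintype.card_pos
    have hN0 : 0 < N := by linarith
    calc ∫⁻ x, mm δ a e x ^ q ≤ ∫⁻ x, ENNReal.ofReal (N ^ (q - 2)) * mm δ a e x ^ (2 : ℝ) := by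
          apply lintegral_mono
          intro x
          change mm δ a e x ^ q ≤ ENNReal.ofReal (N ^ (q - 2)) * mm δ a e x ^ (2 : ℝ)
          have e1 : q = (q - 2) + 2 := by ring
          nth_rewrite 1 [e1]
          rw [ENNReal.rpow_add_of_nonneg _ _ (by linarith) (by norm_num)]
          gcongr
          calc mm δ a e x ^ (q - 2) ≤ (Fintype.card ι : ℝ≥0∞) ^ (q - 2) :=
                ENNReal.rpow_le_rpow (mm_le _ _ _ _) (by linarith)
            _ = _ := by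
                rw [← ENNReal.ofReal_natCast, ENNReal.ofReal_rpow_of_pos hN0]
      _ = ENNReal.ofReal (N ^ (q - 2)) * ∫⁻ x, mm δ a e x ^ (2 : ℝ) := by
          rw [lintegral_const_mul' _ _ ENNReal.ofReal_ne_top]
      _ ≤ ENNReal.ofReal (N ^ (q - 2)) * ENNReal.ofReal (C * K ^ (n - 1) * δ ^ (n - 1) *
            N ^ (2 - 1 / ((n - 1 : ℕ) : ℝ))) := by gcongr
      _ = _ := by
          rw [← ENNReal.ofReal_mul (by positivity)]
          congr 1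
          have e2 : N ^ (q - 1 / ((n - 1 : ℕ) : ℝ)) =
              N ^ (q - 2) * N ^ (2 - 1 / ((n - 1 : ℕ) : ℝ)) := by
            rw [← Real.rpow_add hN0]
            congr 1
            ring
          rw [e2]
          ring

/-- The number of tubes that contain `x`, as a real number. -/
noncomputable def mult {n : ℕ} {ι : Type} [Fintype ι] (δ : ℝ) (a e : ι → E n) (x : E n) : ℝ :=
  ∑ i, (tube δ (a i) (e i)).indicator (fun _ => (1 : ℝ)) x

theorem enorm_mult {n : ℕ} {ι : Type} [Fintype ι] (δ : ℝ) (a e : ι → E n) (x : E n) :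
    ‖mult δ a e x‖ₑ = mm δ a e x := by
  unfold mult mm
  rw [Real.enorm_of_nonneg (Finset.sum_nonneg fun i _ =>
      Set.indicator_nonneg (fun _ _ => zero_le_one) _),
      ENNReal.ofReal_sum_of_nonneg fun i _ => Set.indicator_nonneg (fun _ _ => zero_le_one) _]
  refine Finset.sum_congr rfl fun i _ => ?_
  by_cases hx : x ∈ tube δ (a i) (e i)
  · rw [Set.indicator_of_mem hx, Set.indicator_of_mem hx, ENNReal.ofReal_one]
  · rw [Set.indicator_of_notMem hx, Set.indicator_of_notMem hx, ENNReal.ofReal_zero]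

/-- The inequality. -/
def KB {n : ℕ} {ι : Type} [Fintype ι] (q C δ : ℝ) (a e : ι → E n) : Prop :=
  eLpNorm (mult δ a e) (ENNReal.ofReal q) volume ≤
    ENNReal.ofReal (C * (δ ^ (((n : ℝ) - 1) / q) *
      (Fintype.card ι : ℝ) ^ (1 - 1 / (q * ((n : ℝ) - 1)))))

theorem to_elp {n : ℕ} (hn : 3 ≤ n) {q A : ℝ} (hq : 0 < q) (hA : 0 ≤ A) {δ : ℝ} (hδ : 0 < δ)
    {ι : Type} [Fintype ι] (a e : ι → E n)
    (h : ∫⁻ x, mm δ a e x ^ q ≤ ENNReal.ofReal (A * δ ^ (n - 1) *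
        (Fintype.card ι : ℝ) ^ (q - 1 / ((n - 1 : ℕ) : ℝ)))) : KB q (A ^ (1 / q)) δ a e := by
  unfold KB
  have hn1 : ((n - 1 : ℕ) : ℝ) = (n : ℝ) - 1 := by
    rw [Nat.cast_sub (by omega), Nat.cast_one]
  have hn2 : (2 : ℝ) ≤ (n : ℝ) - 1 := by
    rw [← hn1]; exact_mod_cast (by omega : 2 ≤ n - 1)
  rw [eLpNorm_eq_lintegral_rpow_enorm_toReal (by
    rw [ne_eq, ENNReal.ofReal_eq_zero, not_le]; exact hq) ENNReal.ofReal_ne_top,
    ENNReal.toReal_ofReal hq.le]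
  simp only [enorm_mult]
  refine (ENNReal.rpow_le_rpow h (by positivity)).trans (le_of_eq ?_)
  rw [ENNReal.ofReal_rpow_of_nonneg (by positivity) (by positivity)]
  congr 1
  rw [Real.mul_rpow (by positivity) (by positivity), Real.mul_rpow (by positivity) (by positivity),
    ← Real.rpow_natCast, ← Real.rpow_mul hδ.le, ← Real.rpow_mul (by positivity), mul_assoc, hn1]
  congr 2
  · congr 1
    ring
  · congr 1
    field_simp

/-- **Planar hairbrushes.** -/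
theorem planar {n : ℕ} (hn : 3 ≤ n) {q : ℝ} (hq1 : (n : ℝ) / ((n : ℝ) - 1) < q)
    (b : ℕ) : ∃ C : ℝ, 0 < C ∧ ∀ K : ℝ, 1 ≤ K → ∀ δ : ℝ, 0 < δ → δ < 1 →
    ∀ (ι : Type) [Fintype ι] (a e w : ι → E n) (P : ι → Fin b → E n) (ρ : ι → ℝ),
    (∀ i, ‖e i‖ = 1) → (∀ i j, i ≠ j → δ ≤ ‖e i - e j‖) → PH K δ a e w P ρ →
    KB q (C * K ^ (((n : ℝ) - 1) / q)) δ a e := by
  have hn1 : ((n - 1 : ℕ) : ℝ) = (n : ℝ) - 1 := by
    rw [Nat.cast_sub (by omega), Nat.cast_one]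
  have hn2 : (2 : ℝ) ≤ (n : ℝ) - 1 := by
    rw [← hn1]; exact_mod_cast (by omega : 2 ≤ n - 1)
  have hq' : 1 + 1 / ((n - 1 : ℕ) : ℝ) < q := by
    rw [hn1]
    have : (n : ℝ) / ((n : ℝ) - 1) = 1 + 1 / ((n : ℝ) - 1) := by
      field_simp
      ring
    rwa [← this]
  have hq0 : 0 < q := by
    have : 0 < 1 / ((n - 1 : ℕ) : ℝ) := by
      rw [hn1]; positivity
    linarith
  obtain ⟨C, hC, h⟩ := core_all hn hq' b
  refine ⟨C ^ (1 / q), by positivity, fun K hK δ hδ hδ1 ι _ a e w P ρ he hsep hpl => ?_⟩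
  have h1 := to_elp hn hq0 (by positivity) hδ a e (h K hK δ hδ hδ1 ι a e w P ρ he hsep hpl)
  have e1 : (C * K ^ (n - 1)) ^ (1 / q) = C ^ (1 / q) * K ^ (((n : ℝ) - 1) / q) := by
    rw [Real.mul_rpow (by positivity) (by positivity), ← Real.rpow_natCast K, ← Real.rpow_mul (by linarith), hn1]
    congr 2
    ring
  rwa [e1] at h1

theorem KB_mono {n : ℕ} {ι : Type} [Fintype ι] {q C C' δ : ℝ} (hδ : 0 < δ) (hCC : C ≤ C')
    {a e : ι → E n} (h : KB q C δ a e) : KB q C' δ a e := by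
  unfold KB at h ⊢
  refine h.trans (ENNReal.ofReal_le_ofReal ?_)
  gcongr

/-- Points of a tube whose centre is near a plane. -/
theorem mem_near {n : ℕ} {δ K : ℝ} {a e w p x : E n} {s t : ℝ}
    (ha : ‖a - p - s • e - t • w‖ ≤ K * δ) (hx : x ∈ tube δ a e) :
    ‖(x - p) - (s + inner ℝ (x - a) e) • e - t • w‖ ≤ (1 + K) * δ := by
  have h1 : (x - p) - (s + inner ℝ (x - a) e) • e - t • w =
      ((x - a) - (inner ℝ (x - a) e) • e) + (a - p - s • e - t • w) := by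
    module
  rw [h1]
  refine (norm_add_le _ _).trans ?_
  have := hx.2
  linarith

/-- `J² = -1`. -/
theorem fam_c {n : ℕ} (hn : 3 ≤ n) {q : ℝ} (hq1 : (n : ℝ) / ((n : ℝ) - 1) < q) :
    ∃ C : ℝ, 0 < C ∧ ∀ κ : ℝ, 1 ≤ κ → ∀ J : E n →ₗ[ℝ] E n, (∀ v, ‖J v‖ ≤ κ * ‖v‖) →
    (∀ v, J (J v) = -v) → ∀ δ : ℝ, 0 < δ → δ < 1 →
    ∀ (ι : Type) [Fintype ι] (a e : ι → E n) (p : E n),
    (∀ i, ‖e i‖ = 1) → (∀ i j, i ≠ j → δ ≤ ‖e i - e j‖) →
    (∀ i, ∃ s t : ℝ, ‖a i - p - s • e i - t • J (e i)‖ ≤ κ * δ) →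
    KB q (C * κ ^ (3 * (((n : ℝ) - 1) / q))) δ a e := by
  obtain ⟨C, hC, h⟩ := planar hn hq1 1
  refine ⟨C * 24 ^ (((n : ℝ) - 1) / q), by positivity, ?_⟩
  intro κ hκ J hJn hJ δ hδ hδ1 ι _ a e p he hsep ha
  choose s t hst using ha
  have h1 := h (24 * κ ^ 3) (by
    have : 1 ≤ κ ^ 3 := one_le_pow₀ hκ
    linarith) δ hδ hδ1 ι a e (fun i => J (e i)) (fun _ _ => p) (fun _ => 0) he hsep (by
    intro i j _ x hx
    refine ⟨0, ?_⟩
    have h2 := mem_near (hst i) hx.1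
    have h3 := mem_near (hst j) hx.2
    obtain ⟨s', u', h4⟩ := cplane hJ hκ hJn (he j) h2 h3
    refine ⟨s', u', h4.trans ?_⟩
    have h5 : (1 + κ) * δ ≤ 2 * κ * δ := by gcongr; linarith
    calc 12 * κ ^ 2 * ((1 + κ) * δ) ≤ 12 * κ ^ 2 * (2 * κ * δ) := by gcongr
      _ = _ := by ring)
  have e1 : C * (24 * κ ^ 3) ^ (((n : ℝ) - 1) / q) =
      C * 24 ^ (((n : ℝ) - 1) / q) * κ ^ (3 * (((n : ℝ) - 1) / q)) := by
    rw [Real.mul_rpow (by positivity) (by positivity), ← Real.rpow_natCast κ 3,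
      ← Real.rpow_mul (by linarith), mul_assoc]
    norm_num
  rwa [e1] at h1

theorem one_side {n : ℕ} (hn : 3 ≤ n) {q : ℝ} (hq1 : (n : ℝ) / ((n : ℝ) - 1) < q) :
    ∃ C : ℝ, 0 < C ∧ ∀ κ : ℝ, 1 ≤ κ → ∀ J : E n →ₗ[ℝ] E n, (∀ v, ‖J v‖ ≤ κ * ‖v‖) →
    (∀ v, J (J v) = v) → ∀ δ : ℝ, 0 < δ → δ < 1 →
    ∀ (ι : Type) [Fintype ι] (a e : ι → E n) (p : E n),
    (∀ i, ‖e i‖ = 1) → (∀ i j, i ≠ j → δ ≤ ‖e i - e j‖) →
    (∀ i, ∃ s t : ℝ, ‖a i - p - s • e i - t • J (e i)‖ ≤ κ * δ) →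
    (∀ i, ‖e i + J (e i)‖ ≤ ‖e i - J (e i)‖) →
    KB q (C * κ ^ (3 * (((n : ℝ) - 1) / q))) δ a e := by
  obtain ⟨C, hC, h⟩ := planar hn hq1 2
  refine ⟨C * 64 ^ (((n : ℝ) - 1) / q), by positivity, ?_⟩
  intro κ hκ J hJn hJ δ hδ hδ1 ι _ a e p he hsep ha hside
  choose s t hst using ha
  have h1 := h (64 * κ ^ 3) (by
    have : 1 ≤ κ ^ 3 := one_le_pow₀ hκ
    linarith) δ hδ hδ1 ι a e (fun i => J (e i))
    (fun i => ![p + (-t i) • (e i - J (e i)), p + (t i) • (e i + J (e i))])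
    (fun i => ‖e i + J (e i)‖) he hsep (by
    intro i j hij x hx
    have h2 := mem_near (hst i) hx.1
    have h3 := mem_near (hst j) hx.2
    have h5 : (1 + κ) * δ ≤ 2 * κ * δ := by gcongr; linarith
    have h6 : 32 * κ ^ 2 * ((1 + κ) * δ) ≤ 64 * κ ^ 3 * δ := by
      calc 32 * κ ^ 2 * ((1 + κ) * δ) ≤ 32 * κ ^ 2 * (2 * κ * δ) := by gcongr
        _ = _ := by ring
    rcases rplane hJ hκ hJn (he i) (he j) (hside i) hij h2 h3 with ⟨s', u', h4⟩ | ⟨s', u', h4⟩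
    · refine ⟨0, s', u', le_trans ?_ (h4.trans h6)⟩
      apply le_of_eq
      congr 2
      simp only [Matrix.cons_val_zero]
      abel
    · refine ⟨1, s', u', le_trans ?_ (h4.trans h6)⟩
      apply le_of_eq
      congr 2
      simp only [Matrix.cons_val_one, Matrix.cons_val_zero]
      abel)
  have e1 : C * (64 * κ ^ 3) ^ (((n : ℝ) - 1) / q) =
      C * 64 ^ (((n : ℝ) - 1) / q) * κ ^ (3 * (((n : ℝ) - 1) / q)) := by
    rw [Real.mul_rpow (by positivity) (by positivity), ← Real.rpow_natCast κ 3,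
      ← Real.rpow_mul (by linarith), mul_assoc]
    norm_num
  rwa [e1] at h1

/-- Splitting a family into two. -/
theorem split {n : ℕ} (hn : 3 ≤ n) {q : ℝ} (hq : 1 ≤ q) {C δ : ℝ} (hC : 0 ≤ C) (hδ : 0 < δ)
    {ι : Type} [Fintype ι] (a e : ι → E n) (S : ι → Prop) [DecidablePred S]
    (h1 : KB q C δ (fun i : {i // S i} => a i) (fun i => e i))
    (h2 : KB q C δ (fun i : {i // ¬ S i} => a i) (fun i => e i)) : KB q (2 * C) δ a e := by
  classical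
  unfold KB at *
  have hn2 : (2 : ℝ) ≤ (n : ℝ) - 1 := by
    have : (3 : ℝ) ≤ n := by exact_mod_cast hn
    linarith
  have hm : mult δ a e = mult δ (fun i : {i // S i} => a i) (fun i => e i) +
      mult δ (fun i : {i // ¬ S i} => a i) (fun i => e i) := by
    funext x
    simp only [mult, Pi.add_apply]
    exact (Fintype.sum_subtype_add_sum_subtype S
      (fun i => (tube δ (a i) (e i)).indicator (fun _ => (1 : ℝ)) x)).symm
  have hmeas : ∀ (κ : Type) [Fintype κ] (a e : κ → E n),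
      AEStronglyMeasurable (mult δ a e) (volume : Measure (E n)) := by
    intro κ _ a e
    apply Measurable.aestronglyMeasurable
    unfold mult
    exact Finset.measurable_fun_sum _ (fun i _ => measurable_const.indicator (tube_ms δ (a i) (e i)))
  have hexp : 0 ≤ 1 - 1 / (q * ((n : ℝ) - 1)) := by
    rw [sub_nonneg, div_le_one (by positivity)]
    nlinarith
  have key : ∀ M : ℕ, M ≤ Fintype.card ι →
      ENNReal.ofReal (C * (δ ^ (((n : ℝ) - 1) / q) * (M : ℝ) ^ (1 - 1 / (q * ((n : ℝ) - 1))))) ≤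
      ENNReal.ofReal (C * (δ ^ (((n : ℝ) - 1) / q) *
        (Fintype.card ι : ℝ) ^ (1 - 1 / (q * ((n : ℝ) - 1))))) := by
    intro M hM
    apply ENNReal.ofReal_le_ofReal
    have hM' : (M : ℝ) ≤ (Fintype.card ι : ℝ) := by exact_mod_cast hM
    gcongr
  rw [hm]
  refine (eLpNorm_add_le (hmeas _ _ _) (hmeas _ _ _) (by
    rw [← ENNReal.ofReal_one]; exact ENNReal.ofReal_le_ofReal hq)).trans ?_
  refine (add_le_add (h1.trans (key _ (Fintype.card_subtype_le _)))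
    (h2.trans (key _ (Fintype.card_subtype_le _)))).trans (le_of_eq ?_)
  rw [← ENNReal.ofReal_add (by positivity) (by positivity)]
  congr 1
  ring

/-- `J² = 1`. -/
theorem fam_r {n : ℕ} (hn : 3 ≤ n) {q : ℝ} (hq1 : (n : ℝ) / ((n : ℝ) - 1) < q) :
    ∃ C : ℝ, 0 < C ∧ ∀ κ : ℝ, 1 ≤ κ → ∀ J : E n →ₗ[ℝ] E n, (∀ v, ‖J v‖ ≤ κ * ‖v‖) →
    (∀ v, J (J v) = v) → ∀ δ : ℝ, 0 < δ → δ < 1 →
    ∀ (ι : Type) [Fintype ι] (a e : ι → E n) (p : E n),
    (∀ i, ‖e i‖ = 1) → (∀ i j, i ≠ j → δ ≤ ‖e i - e j‖) →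
    (∀ i, ∃ s t : ℝ, ‖a i - p - s • e i - t • J (e i)‖ ≤ κ * δ) →
    KB q (C * κ ^ (3 * (((n : ℝ) - 1) / q))) δ a e := by
  classical
  obtain ⟨C, hC, h⟩ := one_side hn hq1
  have hq0 : 1 ≤ q := by
    have h3 : (3 : ℝ) ≤ n := by exact_mod_cast hn
    have : 1 ≤ (n : ℝ) / ((n : ℝ) - 1) := by
      rw [le_div_iff₀ (by linarith)]; linarith
    linarith
  refine ⟨2 * C, by positivity, ?_⟩
  intro κ hκ J hJn hJ δ hδ hδ1 ι _ a e p he hsep ha
  have e1 : 2 * C * κ ^ (3 * (((n : ℝ) - 1) / q)) = 2 * (C * κ ^ (3 * (((n : ℝ) - 1) / q))) := by ring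
  rw [e1]
  have hκ0 : 0 < κ := by linarith
  apply split hn hq0 (by positivity) hδ a e (fun i => ‖e i + J (e i)‖ ≤ ‖e i - J (e i)‖)
  · exact h κ hκ J hJn hJ δ hδ hδ1 _ _ _ p (fun i => he i)
      (fun i j hij => hsep i j (fun hh => hij (Subtype.ext hh))) (fun i => ha i) (fun i => i.2)
  · refine h κ hκ (-J) (fun v => by rw [LinearMap.neg_apply, norm_neg]; exact hJn v)
      (fun v => by rw [LinearMap.neg_apply, LinearMap.neg_apply, map_neg, neg_neg]; exact hJ v)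
      δ hδ hδ1 _ _ _ p (fun i => he i)
      (fun i j hij => hsep i j (fun hh => hij (Subtype.ext hh))) (fun i => ?_) (fun i => ?_)
    · obtain ⟨s, t, hst⟩ := ha i
      refine ⟨s, -t, ?_⟩
      rw [LinearMap.neg_apply, neg_smul_neg]
      exact hst
    · have := i.2
      push Not at this
      rw [LinearMap.neg_apply, sub_neg_eq_add, ← sub_eq_add_neg]
      exact this.le

/-- Tubes coplanar with a line. -/
theorem fam_l {n : ℕ} (hn : 3 ≤ n) {q : ℝ} (hq1 : (n : ℝ) / ((n : ℝ) - 1) < q) :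
    ∃ C : ℝ, 0 < C ∧ ∀ K : ℝ, 1 ≤ K → ∀ δ : ℝ, 0 < δ → δ < 1 →
    ∀ (ι : Type) [Fintype ι] (a e : ι → E n) (p u : E n), ‖u‖ = 1 →
    (∀ i, ‖e i‖ = 1) → (∀ i j, i ≠ j → δ ≤ ‖e i - e j‖) →
    (∀ i, ∃ s t : ℝ, ‖a i - p - s • e i - t • u‖ ≤ K * δ) →
    KB q (C * K ^ (((n : ℝ) - 1) / q)) δ a e := by
  obtain ⟨C, hC, h⟩ := planar hn hq1 1
  refine ⟨C * 16 ^ (((n : ℝ) - 1) / q), by positivity, ?_⟩
  intro K hK δ hδ hδ1 ι _ a e p u hu he hsep ha
  choose s t hst using ha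
  have h1 := h (16 * K) (by linarith) δ hδ hδ1 ι a e (fun _ => u) (fun i _ => p + t i • u)
    (fun i => sn u (e i)) he hsep (by
    intro i j hij x hx
    refine ⟨0, ?_⟩
    have h2 := mem_near (hst i) hx.1
    have h3 := mem_near (hst j) hx.2
    obtain ⟨s', u', h4⟩ := lplane hu (he i) (he j) hij h2 h3
    refine ⟨s', u', le_trans ?_ (h4.trans ?_)⟩
    · apply le_of_eq
      congr 2
      module
    · have h5 : (1 + K) * δ ≤ 2 * K * δ := by gcongr; linarith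
      calc 8 * ((1 + K) * δ) ≤ 8 * (2 * K * δ) := by gcongr
        _ = _ := by ring)
  have e1 : C * (16 * K) ^ (((n : ℝ) - 1) / q) =
      C * 16 ^ (((n : ℝ) - 1) / q) * K ^ (((n : ℝ) - 1) / q) := by
    rw [Real.mul_rpow (by positivity) (by positivity), mul_assoc]
  rwa [e1] at h1

end Pool.Agent.X160.Pl
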