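import Pool.Agent.TH705.RR.Core
set_option autoImplicit false

/-!
# Counting separated directions near a plane, volumes of intersections of tubes
-/

open MeasureTheory Set Metric
open scoped ENNReal NNReal

namespace Pool.Agent.X160.Pl

open Pool.Agent.TH705.RR

/-- Packing: the balls of radius `δ/8` around the points `t e_j`, `1/2 ≤ t ≤ 1`. -/
theorem pack {n : ℕ} {δ : ℝ} (hδ : 0 < δ) {ι : Type} [Fintype ι] (e : ι → E n)
    (he : ∀ i, ‖e i‖ = 1) (hsep : ∀ i j, i ≠ j → δ ≤ ‖e i - e j‖) (J : Finset ι) (R : Set (E n))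
    (hR : ∀ j ∈ J, ∀ t : ℝ, 1 / 2 ≤ t → t ≤ 1 → ball (t • e j) (δ / 8) ⊆ R) :
    ENNReal.ofReal ((J.card : ℝ) * (2 / δ) * ((δ / 8) ^ n * vb n)) ≤ volume R := by
  classical
  set M : ℕ := ⌊2 / δ⌋₊ with hM
  have hM1 : (M : ℝ) ≤ 2 / δ := Nat.floor_le (by positivity)
  have hM2 : 2 / δ < (M : ℝ) + 1 := Nat.lt_floor_add_one _
  set c : ι × ℕ → E n := fun p => ((1 / 2 : ℝ) + p.2 * (δ / 4)) • e p.1 with hc
  set I : Finset (ι × ℕ) := J ×ˢ Finset.range (M + 1) with hI
  have hv := vb_pos n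
  have ht : ∀ k ∈ Finset.range (M + 1), (1 / 2 : ℝ) ≤ 1 / 2 + k * (δ / 4) ∧ (1 / 2 : ℝ) + k * (δ / 4) ≤ 1 := by
    intro k hk
    have hk' : k ≤ M := Nat.lt_succ_iff.1 (Finset.mem_range.1 hk)
    have hk2 : (k : ℝ) ≤ 2 / δ := le_trans (by exact_mod_cast hk') hM1
    constructor
    · have : 0 ≤ (k : ℝ) * (δ / 4) := by positivity
      linarith
    · have : (k : ℝ) * (δ / 4) ≤ 2 / δ * (δ / 4) := by gcongr
      have h2 : 2 / δ * (δ / 4) = 1 / 2 := by field_simp; norm_num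
      linarith
  have hdist : ∀ p ∈ I, ∀ p' ∈ I, p ≠ p' → δ / 4 ≤ dist (c p) (c p') := by
    rintro ⟨j, k⟩ hp ⟨j', k'⟩ hp' hne
    simp only [hI, Finset.mem_product] at hp hp'
    rw [dist_eq_norm]
    simp only [hc]
    have hk := ht k hp.2
    have hk' := ht k' hp'.2
    by_cases hjj : j = j'
    · subst hjj
      rw [← sub_smul, norm_smul, he, mul_one, Real.norm_eq_abs]
      have hkk : k ≠ k' := fun h => hne (by rw [h])
      have h1 : (1 : ℝ) ≤ |(k : ℝ) - k'| := by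
        have : (1 : ℤ) ≤ |(k : ℤ) - k'| := Int.one_le_abs (sub_ne_zero.2 (by exact_mod_cast hkk))
        exact_mod_cast this
      have h2 : (1 / 2 + (k : ℝ) * (δ / 4)) - (1 / 2 + (k' : ℝ) * (δ / 4)) = ((k : ℝ) - k') * (δ / 4) := by ring
      rw [h2, abs_mul, abs_of_pos (by positivity : (0:ℝ) < δ / 4)]
      nlinarith
    · have hs := hsep j j' hjj
      set t := (1 / 2 : ℝ) + k * (δ / 4)
      set t' := (1 / 2 : ℝ) + k' * (δ / 4)
      have h1 : ‖t • e j - t' • e j'‖ ^ 2 = (t - t') ^ 2 + t * t' * ‖e j - e j'‖ ^ 2 := by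
        rw [norm_sub_sq_real, norm_sub_sq_real, norm_smul, norm_smul, he, he, inner_smul_left, inner_smul_right,
          Real.norm_eq_abs, Real.norm_eq_abs, mul_one, mul_one, sq_abs, sq_abs]
        simp only [conj_trivial]
        ring
      have h2 : (δ / 2) ^ 2 ≤ ‖t • e j - t' • e j'‖ ^ 2 := by
        rw [h1]
        have h3 : (1 / 4 : ℝ) ≤ t * t' := by nlinarith [hk.1, hk'.1]
        have h4 : δ ^ 2 ≤ ‖e j - e j'‖ ^ 2 := by gcongr
        nlinarith [sq_nonneg (t - t'), sq_nonneg ‖e j - e j'‖]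
      have h3 := abs_le_of_sq_le_sq h2 (norm_nonneg _)
      have h4 := (abs_le.1 h3).2
      linarith
  have hdisj : Set.PairwiseDisjoint (↑I : Set (ι × ℕ)) (fun p => ball (c p) (δ / 8)) := by
    intro p hp p' hp' hne
    apply ball_disjoint_ball
    have := hdist p hp p' hp' hne
    linarith
  have hsub : (⋃ p ∈ I, ball (c p) (δ / 8)) ⊆ R := by
    intro x hx
    obtain ⟨⟨j, k⟩, hp, hx⟩ := mem_iUnion₂.1 hx
    simp only [hI, Finset.mem_product] at hp
    have hk := ht k hp.2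
    exact hR j hp.1 _ hk.1 hk.2 hx
  have hvol : (I.card : ℝ≥0∞) * ENNReal.ofReal ((δ / 8) ^ n * vb n) ≤ volume R := by
    refine le_trans ?_ (measure_mono hsub)
    rw [measure_biUnion_finset hdisj (fun p _ => measurableSet_ball)]
    rw [Finset.sum_congr rfl (fun p _ => vol_ball (c p) (by positivity : (0:ℝ) < δ / 8)),
      Finset.sum_const, nsmul_eq_mul]
  refine le_trans ?_ hvol
  rw [← ENNReal.ofReal_natCast, ← ENNReal.ofReal_mul (by positivity)]
  apply ENNReal.ofReal_le_ofReal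
  have hIc : (I.card : ℝ) = J.card * ((M : ℝ) + 1) := by
    rw [hI, Finset.card_product, Finset.card_range]
    push_cast
    ring
  rw [hIc]
  gcongr

/-- Points within `h` of the rectangle `{s w + t w' : |s| ≤ A, |t| ≤ B}`. -/
def Box {n : ℕ} (w w' : E n) (A B h : ℝ) : Set (E n) :=
  {x | ∃ s t : ℝ, |s| ≤ A ∧ |t| ≤ B ∧ ‖x - s • w - t • w'‖ ≤ h}

theorem grid {L ρ t : ℝ} (hρ : 0 < ρ) (ht : |t| ≤ L) :
    ∃ k ∈ Finset.Icc (-((⌈L / ρ⌉₊ : ℕ) : ℤ)) (⌈L / ρ⌉₊ : ℕ), |t - k * ρ| ≤ ρ := by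
  have hfl := Int.floor_le (t / ρ)
  have hfl2 := Int.lt_floor_add_one (t / ρ)
  set k : ℤ := ⌊t / ρ⌋ with hk
  refine ⟨k, ?_, ?_⟩
  · rw [Finset.mem_Icc]
    constructor
    · rw [hk, Int.le_floor]
      push_cast
      have h3 : -(L / ρ) ≤ t / ρ := by
        rw [← neg_div]
        gcongr
        exact (abs_le.1 ht).1
      have h4 := Nat.le_ceil (L / ρ)
      linarith
    · have h2 : (k : ℝ) ≤ (⌈L / ρ⌉₊ : ℕ) := by
        have h3 : t / ρ ≤ L / ρ := by
          gcongr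
          exact (abs_le.1 ht).2
        exact hfl.trans (h3.trans (Nat.le_ceil _))
      exact_mod_cast h2
  · rw [abs_le]
    have e1 : t = t / ρ * ρ := by field_simp
    constructor
    · nlinarith
    · nlinarith

theorem vol_box {n : ℕ} {w w' : E n} (hw : ‖w‖ ≤ 1) (hw' : ‖w'‖ ≤ 1) {A B h : ℝ} (hA : 0 ≤ A)
    (hB : 0 ≤ B) (hh : 0 < h) :
    volume (Box w w' A B h) ≤
      ENNReal.ofReal ((2 * (A / h) + 3) * (2 * (B / h) + 3) * ((3 * h) ^ n * vb n)) := by
  set K : ℕ := ⌈A / h⌉₊ with hK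
  set K' : ℕ := ⌈B / h⌉₊ with hK'
  have hKr : (K : ℝ) < A / h + 1 := Nat.ceil_lt_add_one (by positivity)
  have hKr' : (K' : ℝ) < B / h + 1 := Nat.ceil_lt_add_one (by positivity)
  have hv := vb_pos n
  have hsub : Box w w' A B h ⊆ ⋃ p ∈ Finset.Icc (-(K : ℤ)) K ×ˢ Finset.Icc (-(K' : ℤ)) K',
      closedBall ((p.1 * h : ℝ) • w + (p.2 * h : ℝ) • w') (3 * h) := by
    rintro x ⟨s, t, hs, ht, hx⟩
    obtain ⟨k, hk, hk1⟩ := grid hh hs
    obtain ⟨l, hl, hl1⟩ := grid hh ht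
    refine mem_iUnion₂.2 ⟨(k, l), Finset.mem_product.2 ⟨hk, hl⟩, ?_⟩
    rw [mem_closedBall, dist_eq_norm]
    have h5 : x - ((k * h : ℝ) • w + (l * h : ℝ) • w') =
        (x - s • w - t • w') + ((s - k * h) • w + (t - l * h) • w') := by
      rw [sub_smul, sub_smul]; abel
    rw [h5]
    refine (norm_add_le _ _).trans ?_
    have h6 : ‖(s - k * h) • w + (t - l * h) • w'‖ ≤ h + h := by
      refine (norm_add_le _ _).trans ?_
      rw [norm_smul, norm_smul, Real.norm_eq_abs, Real.norm_eq_abs]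
      have h7 : |s - k * h| * ‖w‖ ≤ h * 1 := by gcongr
      have h8 : |t - l * h| * ‖w'‖ ≤ h * 1 := by gcongr
      linarith
    linarith
  have hc : ∀ p ∈ Finset.Icc (-(K : ℤ)) K ×ˢ Finset.Icc (-(K' : ℤ)) K',
      volume (closedBall ((p.1 * h : ℝ) • w + (p.2 * h : ℝ) • w') (3 * h)) =
        ENNReal.ofReal ((3 * h) ^ n * vb n) := fun p _ => vol_cball _ (by positivity)
  have hcard : (Finset.Icc (-(K : ℤ)) K).card = 2 * K + 1 := by
    rw [Int.card_Icc]
    omega
  have hcard' : (Finset.Icc (-(K' : ℤ)) K').card = 2 * K' + 1 := by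
    rw [Int.card_Icc]
    omega
  calc volume (Box w w' A B h)
      ≤ volume (⋃ p ∈ Finset.Icc (-(K : ℤ)) K ×ˢ Finset.Icc (-(K' : ℤ)) K',
      closedBall ((p.1 * h : ℝ) • w + (p.2 * h : ℝ) • w') (3 * h)) := measure_mono hsub
    _ ≤ ∑ p ∈ Finset.Icc (-(K : ℤ)) K ×ˢ Finset.Icc (-(K' : ℤ)) K',
      volume (closedBall ((p.1 * h : ℝ) • w + (p.2 * h : ℝ) • w') (3 * h)) :=
        measure_biUnion_finset_le _ _
    _ = ENNReal.ofReal ((2 * K + 1) * (2 * K' + 1) * ((3 * h) ^ n * vb n)) := by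
        rw [Finset.sum_congr rfl hc, Finset.sum_const, nsmul_eq_mul, Finset.card_product, hcard,
          hcard', ← ENNReal.ofReal_natCast, ← ENNReal.ofReal_mul (by positivity)]
        push_cast
        rfl
    _ ≤ _ := by
        apply ENNReal.ofReal_le_ofReal
        have g1 : 2 * (K : ℝ) + 1 ≤ 2 * (A / h) + 3 := by linarith
        have g2 : 2 * (K' : ℝ) + 1 ≤ 2 * (B / h) + 3 := by linarith
        have g3 : (0 : ℝ) ≤ 2 * (K' : ℝ) + 1 := by positivity
        have g4 : (0 : ℝ) ≤ 2 * (A / h) + 3 := by positivity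
        exact mul_le_mul_of_nonneg_right (mul_le_mul g1 g2 g3 g4) (by positivity)

theorem alg1 (J δ p c : ℝ) (hδ : 0 < δ) (hc : 0 < c) :
    J * (2 / δ) * (p * δ / c) = J * p * (2 / c) := by
  field_simp

theorem alg2 (p c : ℝ) (hc : 0 < c) : p = p * (2 / c) * (c / 2) := by
  field_simp

/-- Counting `δ`-separated unit vectors near a line and near a plane that contains it. -/
theorem count2 {n : ℕ} (hn : 2 ≤ n) : ∃ K : ℝ, 1 ≤ K ∧ ∀ (δ : ℝ), 0 < δ → δ < 1 →
    ∀ {ι : Type} [Fintype ι] (e : ι → E n), (∀ i, ‖e i‖ = 1) →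
    (∀ i j, i ≠ j → δ ≤ ‖e i - e j‖) → ∀ (w w' : E n), ‖w‖ = 1 → ∀ (J : Finset ι) (y h : ℝ),
    0 ≤ y → δ ≤ h → (∀ j ∈ J, sn w (e j) ≤ y) → (∀ j ∈ J, ∃ s t : ℝ, ‖e j - s • w - t • w'‖ ≤ h) →
      (J.card : ℝ) ≤ K * ((y + h) / δ) * (h / δ) ^ (n - 2) := by
  obtain ⟨K0, hK0, hcount⟩ := count (n := n) (by omega)
  have hv := vb_pos n
  obtain ⟨m, rfl⟩ : ∃ m, n = m + 2 := ⟨n - 2, by omega⟩
  simp only [Nat.add_sub_cancel] at *
  refine ⟨K0 + 7 * 5 * 6 ^ (m + 2) * 8 ^ (m + 2), by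
    have : (0:ℝ) ≤ 7 * 5 * 6 ^ (m + 2) * 8 ^ (m + 2) := by positivity
    linarith, ?_⟩
  intro δ hδ hδ1 ι _ e he hsep w w' hw J y h hy hh hJ hJ2
  have hh0 : 0 < h := by linarith
  rcases le_total 1 h with h1 | h1
  · -- trivial case
    have h2 := hcount δ hδ hδ1 e he hsep w hw J 1 hδ1.le (fun j _ => sn_le_one _ _)
    have h3 : (1 / δ) ^ (m + 1) ≤ ((y + h) / δ) * (h / δ) ^ m := by
      rw [pow_succ, mul_comm]
      gcongr
      linarith
    have e3 : m + 2 - 1 = m + 1 := by omega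
    rw [e3] at h2
    calc (J.card : ℝ) ≤ K0 * (1 / δ) ^ (m + 1) := h2
      _ ≤ K0 * (((y + h) / δ) * (h / δ) ^ m) := by gcongr
      _ ≤ (K0 + 7 * 5 * 6 ^ (m + 2) * 8 ^ (m + 2)) * (((y + h) / δ) * (h / δ) ^ m) := by
          gcongr
          have : (0:ℝ) ≤ 7 * 5 * 6 ^ (m + 2) * 8 ^ (m + 2) := by positivity
          linarith
      _ = _ := by ring
  · -- orthogonal unit vector
    obtain ⟨u, hu1, hu2, hu3⟩ : ∃ u : E (m + 2), (‖u‖ = 1 ∨ u = 0) ∧ inner ℝ w u = 0 ∧
        ∃ c : ℝ, w' = (inner ℝ w w') • w + c • u := by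
      set z : E (m + 2) := w' - (inner ℝ w w') • w with hz
      by_cases hz0 : z = 0
      · refine ⟨0, Or.inr rfl, by simp, 0, ?_⟩
        rw [hz, sub_eq_zero] at hz0
        rw [smul_zero, add_zero]
        exact hz0
      · have hzn : ‖z‖ ≠ 0 := norm_ne_zero_iff.2 hz0
        refine ⟨(‖z‖⁻¹ : ℝ) • z, Or.inl ?_, ?_, ‖z‖, ?_⟩
        · rw [norm_smul, norm_inv, norm_norm, inv_mul_cancel₀ hzn]
        · rw [inner_smul_right, hz, inner_sub_right, inner_smul_right, real_inner_self_eq_norm_sq, hw]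
          ring
        · rw [smul_smul, mul_inv_cancel₀ hzn, one_smul, hz]
          abel
    obtain ⟨c, hc⟩ := hu3
    have hun : ‖u‖ ≤ 1 := by
      rcases hu1 with h2 | h2
      · exact h2.le
      · rw [h2, norm_zero]; exact zero_le_one
    have hkey : ∀ j ∈ J, ∀ t : ℝ, 1 / 2 ≤ t → t ≤ 1 → ball (t • e j) (δ / 8) ⊆
        Box w u 2 (y + h) (2 * h) := by
      intro j hj t ht1 ht2 x hx
      obtain ⟨s, b, hsb⟩ := hJ2 j hj
      rw [hc] at hsb
      set s' : ℝ := s + b * inner ℝ w w' with hs'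
      set b' : ℝ := if u = 0 then 0 else b * c with hb'
      have hsb' : ‖e j - s' • w - b' • u‖ ≤ h := by
        have h3 : e j - s' • w - b' • u =
            e j - s • w - b • ((inner ℝ w w') • w + c • u) := by
          rw [hs', hb']
          split_ifs with hu0
          · rw [hu0, smul_zero, smul_zero, smul_add, smul_smul, smul_zero, add_smul]
            abel
          · rw [smul_add, smul_smul, smul_smul, add_smul]
            abel
        rw [h3]; exact hsb
      have hwe : |inner ℝ w (e j)| ≤ 1 := by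
        have h3 := abs_real_inner_le_norm w (e j)
        rwa [hw, he, one_mul] at h3
      have hs1 : |s'| ≤ 1 + h := by
        have h3 : inner ℝ w (e j - s' • w - b' • u) = inner ℝ w (e j) - s' := by
          rw [inner_sub_right, inner_sub_right, inner_smul_right, inner_smul_right, hu2,
            real_inner_self_eq_norm_sq, hw]
          ring
        have h4 := abs_real_inner_le_norm w (e j - s' • w - b' • u)
        rw [h3, hw, one_mul] at h4
        have h5 := abs_le.1 (h4.trans hsb')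
        have h6 := abs_le.1 hwe
        rw [abs_le]
        constructor <;> linarith [h5.1, h5.2, h6.1, h6.2]
      have hb1 : |b'| ≤ y + h := by
        rcases hu1 with hu | hu
        · have h3 : inner ℝ u (e j - s' • w - b' • u) = inner ℝ u (e j) - b' := by
            rw [inner_sub_right, inner_sub_right, inner_smul_right, inner_smul_right,
              real_inner_comm, real_inner_self_eq_norm_sq, hu, real_inner_comm w u, hu2]
            ring
          have h4 := abs_real_inner_le_norm u (e j - s' • w - b' • u)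
          rw [h3, hu, one_mul] at h4
          have h5 := abs_le.1 (h4.trans hsb')
          have h6 : |inner ℝ u (e j)| ≤ y := by
            have h7 : inner ℝ u (e j - (inner ℝ w (e j)) • w) = inner ℝ u (e j) := by
              rw [inner_sub_right, inner_smul_right, real_inner_comm w u, hu2]
              ring
            have h8 := abs_real_inner_le_norm u (e j - (inner ℝ w (e j)) • w)
            rw [h7, hu, one_mul, perp_norm hw (he j)] at h8
            exact h8.trans (hJ j hj)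
          have h6' := abs_le.1 h6
          rw [abs_le]
          constructor <;> linarith [h5.1, h5.2, h6'.1, h6'.2]
        · have : b' = 0 := by rw [hb', if_pos hu]
          rw [this, abs_zero]
          linarith
      rw [mem_ball, dist_eq_norm] at hx
      refine ⟨t * s', t * b', ?_, ?_, ?_⟩
      · rw [abs_mul, abs_of_pos (by linarith : 0 < t)]
        nlinarith [abs_nonneg s']
      · rw [abs_mul, abs_of_pos (by linarith : 0 < t)]
        nlinarith [abs_nonneg b']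
      · have h3 : x - (t * s') • w - (t * b') • u = (x - t • e j) + t • (e j - s' • w - b' • u) := by
          rw [smul_sub, smul_sub, smul_smul, smul_smul]; abel
        rw [h3]
        refine (norm_add_le _ _).trans ?_
        rw [norm_smul, Real.norm_eq_abs, abs_of_pos (by linarith : 0 < t)]
        have h4 : t * ‖e j - s' • w - b' • u‖ ≤ 1 * h := by gcongr
        linarith
    have hp := (pack hδ e he hsep J _ hkey).trans
      (vol_box (A := 2) (B := y + h) (h := 2 * h) hw.le hun (by norm_num) (by positivity)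
        (by positivity))
    have hp' : (J.card : ℝ) * (2 / δ) * ((δ / 8) ^ (m + 2) * vb (m + 2)) ≤
        (2 * (2 / (2 * h)) + 3) * (2 * ((y + h) / (2 * h)) + 3) * ((3 * (2 * h)) ^ (m + 2) * vb (m + 2)) :=
      (ENNReal.ofReal_le_ofReal_iff (by positivity)).1 hp
    have h5 : (2 * (2 / (2 * h)) + 3) ≤ 5 / h := by
      rw [le_div_iff₀ hh0]
      field_simp
      linarith
    have h6 : (2 * ((y + h) / (2 * h)) + 3) ≤ 4 * ((y + h) / h) := by
      have h7 : 1 ≤ (y + h) / h := by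
        rw [le_div_iff₀ hh0]; linarith
      have h8 : 2 * ((y + h) / (2 * h)) = (y + h) / h := by field_simp
      linarith
    have h9 : (J.card : ℝ) * (2 / δ) * (δ / 8) ^ (m + 2) * vb (m + 2) ≤
        (5 / h) * (4 * ((y + h) / h)) * (6 * h) ^ (m + 2) * vb (m + 2) := by
      calc _ = (J.card : ℝ) * (2 / δ) * ((δ / 8) ^ (m + 2) * vb (m + 2)) := by ring
        _ ≤ _ := hp'
        _ ≤ (5 / h) * (4 * ((y + h) / h)) * ((3 * (2 * h)) ^ (m + 2) * vb (m + 2)) := by gcongr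
        _ = _ := by ring
    have h10 := le_of_mul_le_mul_right h9 hv
    have h8p : (0:ℝ) < 8 ^ (m + 2) := by positivity
    have h11 : (J.card : ℝ) * (2 / δ) * (δ / 8) ^ (m + 2) =
        (J.card : ℝ) * δ ^ (m + 1) * (2 / 8 ^ (m + 2)) := by
      rw [div_pow, pow_succ δ (m + 1)]
      exact alg1 _ _ _ _ hδ h8p
    have h12 : (5 / h) * (4 * ((y + h) / h)) * (6 * h) ^ (m + 2) =
        20 * 6 ^ (m + 2) * ((y + h) * h ^ m) := by
      rw [mul_pow, pow_add h m 2]
      field_simp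
      ring
    rw [h11, h12] at h10
    have h13 : (J.card : ℝ) * δ ^ (m + 1) ≤ 10 * 6 ^ (m + 2) * 8 ^ (m + 2) * ((y + h) * h ^ m) := by
      have h14 : (J.card : ℝ) * δ ^ (m + 1) =
          (J.card : ℝ) * δ ^ (m + 1) * (2 / 8 ^ (m + 2)) * (8 ^ (m + 2) / 2) := by
        exact alg2 _ _ h8p
      rw [h14]
      calc _ ≤ 20 * 6 ^ (m + 2) * ((y + h) * h ^ m) * (8 ^ (m + 2) / 2) := by gcongr
        _ = _ := by ring
    have h15 : (J.card : ℝ) ≤ 10 * 6 ^ (m + 2) * 8 ^ (m + 2) * (((y + h) / δ) * (h / δ) ^ m) := by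
      have h16 : ((y + h) / δ) * (h / δ) ^ m = (y + h) * h ^ m / δ ^ (m + 1) := by
        rw [div_pow, pow_succ]
        field_simp
      rw [h16, ← mul_div_assoc, le_div_iff₀ (by positivity)]
      exact h13
    calc (J.card : ℝ) ≤ 10 * 6 ^ (m + 2) * 8 ^ (m + 2) * (((y + h) / δ) * (h / δ) ^ m) := h15
      _ ≤ (K0 + 7 * 5 * 6 ^ (m + 2) * 8 ^ (m + 2)) * (((y + h) / δ) * (h / δ) ^ m) := by
          gcongr
          have : (0:ℝ) ≤ 6 ^ (m + 2) * 8 ^ (m + 2) := by positivity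
          nlinarith
      _ = _ := by ring

/-- The intersection of two tubes. -/
theorem vol_inter {n : ℕ} (hn : 1 ≤ n) {δ : ℝ} (hδ : 0 < δ) {a a' e e' : E n} (he : ‖e‖ = 1)
    (he' : ‖e'‖ = 1) (hs : 0 < sn e e') :
    volume (tube δ a e ∩ tube δ a' e') ≤
      ENNReal.ofReal (2 ^ n * vb n * 14 * 2 ^ n * (δ ^ n / sn e e')) := by
  have hv := vb_pos n
  rcases (tube δ a e ∩ tube δ a' e').eq_empty_or_nonempty with h0 | ⟨x0, hx0, hx0'⟩
  · rw [h0, measure_empty]; exact zero_le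
  have hsub : tube δ a e ∩ tube δ a' e' ⊆ Rod x0 e (4 * δ / sn e e') (2 * δ) := by
    rintro x ⟨hx, hx'⟩
    set t : ℝ := inner ℝ (x - a) e - inner ℝ (x0 - a) e with ht
    set t' : ℝ := inner ℝ (x - a') e' - inner ℝ (x0 - a') e' with ht'
    have h1 : ‖x - x0 - t • e‖ ≤ 2 * δ := by
      have h2 : x - x0 - t • e = ((x - a) - (inner ℝ (x - a) e) • e) -
          ((x0 - a) - (inner ℝ (x0 - a) e) • e) := by
        rw [ht, sub_smul]; abel
      rw [h2]
      refine (norm_sub_le _ _).trans ?_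
      linarith [hx.2, hx0.2]
    have h1' : ‖x - x0 - t' • e'‖ ≤ 2 * δ := by
      have h2 : x - x0 - t' • e' = ((x - a') - (inner ℝ (x - a') e') • e') -
          ((x0 - a') - (inner ℝ (x0 - a') e') • e') := by
        rw [ht', sub_smul]; abel
      rw [h2]
      refine (norm_sub_le _ _).trans ?_
      linarith [hx'.2, hx0'.2]
    refine ⟨t, ?_, h1⟩
    have h3 : ‖t' • e' - t • e‖ ≤ 4 * δ := by
      have h4 : t' • e' - t • e = (x - x0 - t • e) - (x - x0 - t' • e') := by abel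
      rw [h4]
      refine (norm_sub_le _ _).trans ?_
      linarith
    have h5 := diff_sq he he' t t'
    have h6 : (t * sn e e') ^ 2 ≤ (4 * δ) ^ 2 := by
      calc (t * sn e e') ^ 2 ≤ ‖t' • e' - t • e‖ ^ 2 := by
            rw [h5]; nlinarith [sq_nonneg (t' - t * inner ℝ e e')]
        _ ≤ _ := by gcongr
    have h7 := abs_le_of_sq_le_sq h6 (by positivity)
    have h8 : |t * sn e e'| ≤ 4 * δ := h7
    rw [abs_mul, abs_of_pos hs] at h8
    rw [le_div_iff₀ hs]
    exact h8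
  refine (measure_mono hsub).trans ((vol_rod hn x0 he (by positivity) (by positivity)).trans ?_)
  apply ENNReal.ofReal_le_ofReal
  obtain ⟨m, rfl⟩ : ∃ m, n = m + 1 := ⟨n - 1, by omega⟩
  rw [Nat.add_sub_cancel]
  have hs1 := sn_le_one e e'
  have h1 : 2 * (4 * δ / sn e e') + 3 * (2 * δ) ≤ 14 * (δ / sn e e') := by
    have h2 : δ ≤ δ / sn e e' := by
      rw [le_div_iff₀ hs]
      nlinarith
    have h3 : 4 * δ / sn e e' = 4 * (δ / sn e e') := by ring
    rw [h3]; linarith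
  calc 2 ^ (m + 1) * vb (m + 1) * (2 * (4 * δ / sn e e') + 3 * (2 * δ)) * (2 * δ) ^ m
      ≤ 2 ^ (m + 1) * vb (m + 1) * (14 * (δ / sn e e')) * (2 * δ) ^ m := by gcongr
    _ = 2 ^ (m + 1) * vb (m + 1) * 14 * 2 ^ m * (δ ^ (m + 1) / sn e e') := by
        rw [mul_pow, pow_succ δ]
        ring
    _ ≤ 2 ^ (m + 1) * vb (m + 1) * 14 * 2 ^ (m + 1) * (δ ^ (m + 1) / sn e e') := by
        gcongr
        · norm_num
        · omega

/-- The part of a tube near a point. -/
theorem vol_near {n : ℕ} (hn : 1 ≤ n) {δ : ℝ} (hδ : 0 < δ) {a e : E n} (he : ‖e‖ = 1) (p : E n)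
    {r c : ℝ} (hr : 0 < r) (hδr : δ ≤ c * r) :
    volume {x | x ∈ tube δ a e ∧ ‖x - p‖ ≤ 2 * r} ≤
      ENNReal.ofReal (2 ^ n * vb n * (8 + 6 * c) * 2 ^ n * (δ ^ (n - 1) * r)) := by
  have hv := vb_pos n
  have hc0 : 0 < c := by
    by_contra hcon
    push Not at hcon
    nlinarith
  rcases ({x | x ∈ tube δ a e ∧ ‖x - p‖ ≤ 2 * r}).eq_empty_or_nonempty with h0 | ⟨x0, hx0, hx0'⟩
  · rw [h0, measure_empty]; exact zero_le
  have hsub : {x | x ∈ tube δ a e ∧ ‖x - p‖ ≤ 2 * r} ⊆ Rod x0 e (4 * r) (2 * δ) := by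
    rintro x ⟨hx, hx'⟩
    set t : ℝ := inner ℝ (x - a) e - inner ℝ (x0 - a) e with ht
    have h1 : ‖x - x0 - t • e‖ ≤ 2 * δ := by
      have h2 : x - x0 - t • e = ((x - a) - (inner ℝ (x - a) e) • e) -
          ((x0 - a) - (inner ℝ (x0 - a) e) • e) := by
        rw [ht, sub_smul]; abel
      rw [h2]
      refine (norm_sub_le _ _).trans ?_
      linarith [hx.2, hx0.2]
    refine ⟨t, ?_, h1⟩
    have h3 : t = inner ℝ (x - x0) e := by
      rw [ht, ← inner_sub_left]
      congr 1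
      abel
    rw [h3]
    have h4 := abs_real_inner_le_norm (x - x0) e
    rw [he, mul_one] at h4
    refine h4.trans ?_
    have h5 : x - x0 = (x - p) - (x0 - p) := by abel
    rw [h5]
    refine (norm_sub_le _ _).trans ?_
    linarith
  refine (measure_mono hsub).trans ((vol_rod hn x0 he (by positivity) (by positivity)).trans ?_)
  apply ENNReal.ofReal_le_ofReal
  obtain ⟨m, rfl⟩ : ∃ m, n = m + 1 := ⟨n - 1, by omega⟩
  rw [Nat.add_sub_cancel]
  have h1 : 2 * (4 * r) + 3 * (2 * δ) ≤ (8 + 6 * c) * r := by nlinarith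
  calc 2 ^ (m + 1) * vb (m + 1) * (2 * (4 * r) + 3 * (2 * δ)) * (2 * δ) ^ m
      ≤ 2 ^ (m + 1) * vb (m + 1) * ((8 + 6 * c) * r) * (2 * δ) ^ m := by gcongr
    _ = 2 ^ (m + 1) * vb (m + 1) * (8 + 6 * c) * 2 ^ m * (δ ^ m * r) := by
        rw [mul_pow]
        ring
    _ ≤ 2 ^ (m + 1) * vb (m + 1) * (8 + 6 * c) * 2 ^ (m + 1) * (δ ^ m * r) := by
        gcongr
        · norm_num
        · omega

/-- The volume of a tube. -/
theorem vol_tube {n : ℕ} (hn : 1 ≤ n) {δ : ℝ} (hδ : 0 < δ) (hδ1 : δ < 1) {a e : E n}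
    (he : ‖e‖ = 1) :
    volume (tube δ a e) ≤ ENNReal.ofReal (2 ^ n * vb n * 4 * δ ^ (n - 1)) := by
  have hv := vb_pos n
  have hsub : tube δ a e ⊆ Rod a e (1 / 2) δ := fun x hx => ⟨_, hx.1, hx.2⟩
  refine (measure_mono hsub).trans ((vol_rod hn a he (by norm_num) hδ).trans ?_)
  apply ENNReal.ofReal_le_ofReal
  have : 2 * (1 / 2 : ℝ) + 3 * δ ≤ 4 := by linarith
  gcongr

end Pool.Agent.X160.Pl
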