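import Pool.Agent.X160.Pl.Core
set_option autoImplicit false

/-!
# The tube inequality for families with planar hairbrushes
-/

open MeasureTheory Set Metric
open scoped ENNReal NNReal

namespace Pool.Agent.X160.Pl

open Pool.Agent.TH705.RR

/-- The number of tubes that contain `x`. -/
noncomputable def mm {n : ℕ} {ι : Type} [Fintype ι] (δ : ℝ) (a e : ι → E n) (x : E n) : ℝ≥0∞ :=
  ∑ j, (tube δ (a j) (e j)).indicator (fun _ => (1 : ℝ≥0∞)) x

open Classical in
/-- The number of tubes of rank at most `ρ i` that contain `x`. -/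
noncomputable def mr {n : ℕ} {ι : Type} [Fintype ι] (δ : ℝ) (a e : ι → E n) (ρ : ι → ℝ) (i : ι)
    (x : E n) : ℝ≥0∞ :=
  ∑ j ∈ Finset.univ.filter (fun j => ρ j ≤ ρ i), (tube δ (a j) (e j)).indicator (fun _ => (1 : ℝ≥0∞)) x

theorem tube_ms {n : ℕ} (δ : ℝ) (a e : E n) : MeasurableSet (tube δ a e) :=
  (tube_closed δ a e).measurableSet

theorem ind_ms {n : ℕ} (δ : ℝ) (a e : E n) :
    Measurable ((tube δ a e).indicator (fun _ => (1 : ℝ≥0∞))) :=
  measurable_const.indicator (tube_ms δ a e)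

theorem mr_ms {n : ℕ} {ι : Type} [Fintype ι] (δ : ℝ) (a e : ι → E n) (ρ : ι → ℝ) (i : ι) :
    Measurable (mr δ a e ρ i) := by
  unfold mr
  exact Finset.measurable_fun_sum _ (fun j _ => ind_ms δ (a j) (e j))

theorem mr_le {n : ℕ} {ι : Type} [Fintype ι] (δ : ℝ) (a e : ι → E n) (ρ : ι → ℝ) (i : ι) (x : E n) :
    mr δ a e ρ i x ≤ (Fintype.card ι : ℝ≥0∞) := by
  classical
  unfold mr
  calc _ ≤ ∑ _j ∈ Finset.univ.filter (fun j => ρ j ≤ ρ i), (1 : ℝ≥0∞) := by
        apply Finset.sum_le_sum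
        intro j _
        apply indicator_le_self'
        intro _ _
        exact zero_le
    _ = ((Finset.univ.filter (fun j => ρ j ≤ ρ i)).card : ℝ≥0∞) := by
        rw [Finset.sum_const, nsmul_eq_mul, mul_one]
    _ ≤ _ := by
        exact_mod_cast Finset.card_le_univ _

theorem rank_pt {n : ℕ} {ι : Type} [Fintype ι] (δ : ℝ) (a e : ι → E n) (ρ : ι → ℝ) {q : ℝ}
    (hq : 1 < q) (x : E n) : mm δ a e x ^ q ≤ ENNReal.ofReal q *
      ∑ i, (tube δ (a i) (e i)).indicator (fun x => mr δ a e ρ i x ^ (q - 1)) x := by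
  classical
  set S : Finset ι := Finset.univ.filter (fun j => x ∈ tube δ (a j) (e j)) with hS
  have h1 : mm δ a e x = ((S.card : ℕ) : ℝ≥0∞) := by
    unfold mm
    rw [hS, Finset.card_filter, Nat.cast_sum]
    apply Finset.sum_congr rfl
    intro j _
    by_cases h : x ∈ tube δ (a j) (e j)
    · rw [indicator_of_mem h, if_pos h, Nat.cast_one]
    · rw [indicator_of_notMem h, if_neg h, Nat.cast_zero]
  have h2 : ∀ i, mr δ a e ρ i x = (((S.filter (fun j => ρ j ≤ ρ i)).card : ℕ) : ℝ≥0∞) := by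
    intro i
    unfold mr
    rw [hS, Finset.filter_filter, Finset.card_filter, Nat.cast_sum, Finset.sum_filter]
    apply Finset.sum_congr rfl
    intro j _
    by_cases h : x ∈ tube δ (a j) (e j)
    · by_cases h' : ρ j ≤ ρ i
      · simp [h, h']
      · simp [h']
    · simp [h]
  have h3 : ∑ i, (tube δ (a i) (e i)).indicator (fun x => mr δ a e ρ i x ^ (q - 1)) x =
      ENNReal.ofReal (∑ i ∈ S, ((S.filter (fun j => ρ j ≤ ρ i)).card : ℝ) ^ (q - 1)) := by
    rw [ENNReal.ofReal_sum_of_nonneg (fun i _ => by positivity), hS, Finset.sum_filter]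
    apply Finset.sum_congr rfl
    intro i _
    by_cases h : x ∈ tube δ (a i) (e i)
    · rw [indicator_of_mem h, if_pos h, h2 i, ← ENNReal.ofReal_natCast,
        ENNReal.ofReal_rpow_of_nonneg (Nat.cast_nonneg _) (by linarith)]
    · rw [indicator_of_notMem h, if_neg h]
  rw [h1, h3, ← ENNReal.ofReal_natCast, ENNReal.ofReal_rpow_of_nonneg (Nat.cast_nonneg _) (by linarith),
    ← ENNReal.ofReal_mul (by linarith)]
  apply ENNReal.ofReal_le_ofReal
  have h4 := rank_sum (p := q - 1) (by linarith) ρ S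
  rwa [sub_add_cancel] at h4

/-- One tube, one scale. -/
theorem shell {n : ℕ} (hn : 2 ≤ n) {K0 K2 c1 ε q : ℝ} (hK0 : 1 ≤ K0) (hK2 : 1 ≤ K2)
    (hc1 : 0 < c1) (hε : 0 < ε) (hε1 : ε < 1) (hq : 1 < q) (hq2 : q ≤ 2)
    (hcount : CountA n K0) (hcount2 : CountB n K2)
    {δ : ℝ} (hδ : 0 < δ) (hδ1 : δ < 1) {ι : Type} [Fintype ι] (a e : ι → E n)
    (he : ∀ i, ‖e i‖ = 1) (hsep : ∀ i j, i ≠ j → δ ≤ ‖e i - e j‖) {N : ℝ}
    (hN : (Fintype.card ι : ℝ) ≤ N) (ρ : ι → ℝ) (i : ι) (w : E n) {K r : ℝ} (hK : 1 ≤ K) (hr : 0 < r)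
    (hrN : (1 / r) ^ (n - 1) ≤ N) (hr2 : r ≤ 2) {S : Set (E n)}
    (hS : S ⊆ tube δ (a i) (e i)) (hSv : volume S ≤ ENNReal.ofReal (c1 * (δ ^ (n - 1) * r)))
    (hJ : ∀ j, ρ j ≤ ρ i → (tube δ (a j) (e j) ∩ S).Nonempty →
      ∃ s t : ℝ, ‖e j - s • e i - t • w‖ ≤ K * δ / r) :
    ∫⁻ x in S, mr δ a e ρ i x ^ (q - 1) ≤
      ENNReal.ofReal ((c1 + Cp n K0 K2 c1 ε) * K ^ (n - 1) * (δ ^ (n - 1) * r) *
        ((1 / r) ^ (n - 1) * (N / (1 / r) ^ (n - 1)) ^ ε) ^ (q - 1)) := by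
  classical
  set Λ : ℝ := (1 / r) ^ (n - 1) * (N / (1 / r) ^ (n - 1)) ^ ε with hΛ
  have hB0 : 0 < (1 / r) ^ (n - 1) := by positivity
  have hN0 : 0 < N := by linarith
  have hΛ0 : 0 < Λ := by positivity
  have hCp := Cp_nonneg (n := n) hK0 hK2 hc1 hε
  have hpt : ∀ x, mr δ a e ρ i x ^ (q - 1) ≤ ENNReal.ofReal (Λ ^ (q - 1)) +
      ENNReal.ofReal (Λ ^ (q - 1 - 1)) * mr δ a e ρ i x := by
    intro x
    have h1 := young (x := mr δ a e ρ i x) (l := ENNReal.ofReal Λ)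
      (ENNReal.ofReal_pos.2 hΛ0).ne' ENNReal.ofReal_ne_top (p := q - 1) (by linarith) (by linarith)
    rwa [ENNReal.ofReal_rpow_of_pos hΛ0, ENNReal.ofReal_rpow_of_pos hΛ0] at h1
  have hps := pairsum hn hK0 hK2 hc1 hε hε1 hcount hcount2 hδ hδ1 a e he hsep hN i w hK hr hrN hr2
    hS hSv (Finset.univ.filter (fun j => ρ j ≤ ρ i)) (fun j hj h => hJ j (Finset.mem_filter.1 hj).2 h)
  have hint : ∫⁻ x in S, mr δ a e ρ i x =
      ∑ j ∈ Finset.univ.filter (fun j => ρ j ≤ ρ i), volume (tube δ (a j) (e j) ∩ S) := by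
    unfold mr
    rw [lintegral_finsetSum _ (fun j _ => ind_ms δ (a j) (e j))]
    apply Finset.sum_congr rfl
    intro j _
    rw [lintegral_indicator (tube_ms δ (a j) (e j)), setLIntegral_one,
      Measure.restrict_apply (tube_ms δ (a j) (e j))]
  calc ∫⁻ x in S, mr δ a e ρ i x ^ (q - 1)
      ≤ ∫⁻ x in S, (ENNReal.ofReal (Λ ^ (q - 1)) +
        ENNReal.ofReal (Λ ^ (q - 1 - 1)) * mr δ a e ρ i x) := lintegral_mono hpt
    _ = ENNReal.ofReal (Λ ^ (q - 1)) * volume S +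
        ENNReal.ofReal (Λ ^ (q - 1 - 1)) * ∫⁻ x in S, mr δ a e ρ i x := by
        rw [lintegral_add_left measurable_const, lintegral_const, Measure.restrict_apply_univ,
          lintegral_const_mul _ (mr_ms δ a e ρ i)]
    _ ≤ ENNReal.ofReal (Λ ^ (q - 1)) * ENNReal.ofReal (c1 * (δ ^ (n - 1) * r)) +
        ENNReal.ofReal (Λ ^ (q - 1 - 1)) * ENNReal.ofReal (Cp n K0 K2 c1 ε * K ^ (n - 1) *
          (δ ^ (n - 1) * r) * Λ) := by
        rw [hint]
        gcongr
    _ = ENNReal.ofReal (Λ ^ (q - 1) * (c1 * (δ ^ (n - 1) * r)) +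
        Λ ^ (q - 1 - 1) * (Cp n K0 K2 c1 ε * K ^ (n - 1) * (δ ^ (n - 1) * r) * Λ)) := by
        rw [← ENNReal.ofReal_mul (by positivity), ← ENNReal.ofReal_mul (by positivity),
          ← ENNReal.ofReal_add (by positivity) (by positivity)]
    _ ≤ _ := by
        apply ENNReal.ofReal_le_ofReal
        have h1 : Λ ^ (q - 1 - 1) * Λ = Λ ^ (q - 1) := by
          nth_rewrite 2 [← Real.rpow_one Λ]
          rw [← Real.rpow_add hΛ0]
          congr 1
          ring
        have hKn : 1 ≤ K ^ (n - 1) := one_le_pow₀ hK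
        set D := δ ^ (n - 1) * r with hD
        have hD0 : 0 < D := by positivity
        have hX : 0 < Λ ^ (q - 1) := by positivity
        calc Λ ^ (q - 1) * (c1 * D) + Λ ^ (q - 1 - 1) * (Cp n K0 K2 c1 ε * K ^ (n - 1) * D * Λ)
            = Λ ^ (q - 1) * (c1 * 1 * D) + (Λ ^ (q - 1 - 1) * Λ) * (Cp n K0 K2 c1 ε * K ^ (n - 1) * D) := by
              ring
          _ ≤ Λ ^ (q - 1) * (c1 * K ^ (n - 1) * D) + (Λ ^ (q - 1 - 1) * Λ) *
              (Cp n K0 K2 c1 ε * K ^ (n - 1) * D) := by gcongr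
          _ = _ := by rw [h1]; ring

theorem lam_eq {m : ℕ} (hm : 0 < m) {N r ε : ℝ} (hN : 0 < N) (hr : 0 < r) :
    (1 / r) ^ m * (N / (1 / r) ^ m) ^ ε =
      r ^ (-((m : ℝ) * (1 - ε))) * N ^ (1 - (m : ℝ) * (1 - ε) / (m : ℝ)) := by
  have hm0 : (0 : ℝ) < m := by exact_mod_cast hm
  have h1 : (1 / r) ^ m = r ^ (-(m : ℝ)) := by
    rw [one_div, inv_pow, Real.rpow_neg hr.le, Real.rpow_natCast]
  have h2 : 1 - (m : ℝ) * (1 - ε) / (m : ℝ) = ε := by field_simp; ring
  rw [h2, h1, Real.div_rpow hN.le (by positivity), ← Real.rpow_mul hr.le]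
  rw [mul_div_assoc', mul_comm _ (N ^ ε), mul_div_assoc, ← Real.rpow_sub hr, mul_comm]
  congr 2
  ring

set_option maxHeartbeats 2000000 in
/-- **Planar hairbrushes**, `n / (n - 1) < q ≤ 2`. -/
theorem core {n : ℕ} (hn : 3 ≤ n) {q : ℝ} (hq1 : 1 + 1 / ((n - 1 : ℕ) : ℝ) < q) (hq2 : q ≤ 2)
    (b : ℕ) : ∃ C : ℝ, 0 < C ∧ ∀ K : ℝ, 1 ≤ K → ∀ δ : ℝ, 0 < δ → δ < 1 →
    ∀ (ι : Type) [Fintype ι] (a e w : ι → E n) (P : ι → Fin b → E n) (ρ : ι → ℝ),
    (∀ i, ‖e i‖ = 1) → (∀ i j, i ≠ j → δ ≤ ‖e i - e j‖) →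
    (∀ i j, ρ j ≤ ρ i → ∀ x ∈ tube δ (a i) (e i) ∩ tube δ (a j) (e j),
      ∃ k, ∃ s t : ℝ, ‖x - P i k‖ * ‖e j - s • e i - t • w i‖ ≤ K * δ) →
    ∫⁻ x, mm δ a e x ^ q ≤ ENNReal.ofReal (C * K ^ (n - 1) * δ ^ (n - 1) *
        (Fintype.card ι : ℝ) ^ (q - 1 / ((n - 1 : ℕ) : ℝ))) := by
  obtain ⟨K0, hK0, hcount⟩ := count (n := n) (by omega)
  obtain ⟨K2, hK2, hcount2⟩ := count2 (n := n) (by omega)
  have hv := vb_pos n
  set m : ℕ := n - 1 with hm
  have hm2 : 2 ≤ m := by omega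
  have hmr : (2 : ℝ) ≤ m := by exact_mod_cast hm2
  have hm0 : (0 : ℝ) < m := by linarith
  have hq : 1 < q := by
    have : 0 < 1 / (m : ℝ) := by positivity
    linarith
  -- the loss
  obtain ⟨ε, hε, hε1, hε2⟩ : ∃ ε : ℝ, 0 < ε ∧ ε < 1 ∧ 0 < (m : ℝ) * (1 - ε) * (q - 1) - 1 := by
    have h1 : 1 < (m : ℝ) * (q - 1) := by
      have h2 : 1 / (m : ℝ) < q - 1 := by linarith
      rw [div_lt_iff₀ hm0] at h2
      linarith
    refine ⟨(1 - 1 / ((m : ℝ) * (q - 1))) / 2, ?_, ?_, ?_⟩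
    · have : 1 / ((m : ℝ) * (q - 1)) < 1 := by
        rw [div_lt_iff₀ (by linarith)]; linarith
      linarith
    · have : 0 < 1 / ((m : ℝ) * (q - 1)) := by positivity
      linarith
    · set X := (m : ℝ) * (q - 1) with hX
      have h3 : (m : ℝ) * (1 - (1 - 1 / X) / 2) * (q - 1) - 1 = (X - 1) / 2 := by
        have : (m : ℝ) * (1 - (1 - 1 / X) / 2) * (q - 1) = X * (1 - (1 - 1 / X) / 2) := by
          rw [hX]; ring
        rw [this]
        have hX0 : X ≠ 0 := by linarith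
        field_simp
        ring
      rw [h3]; linarith
  set α : ℝ := (m : ℝ) * (1 - ε) with hα
  set G : ℝ := 1 / (1 - 2 ^ (-(α * (q - 1) - 1))) with hG
  have hG0 : 0 < G := by
    have h2 : (2 : ℝ) ^ (-(α * (q - 1) - 1)) < 1 :=
      Real.rpow_lt_one_of_one_lt_of_neg (by norm_num) (by linarith)
    have h3 : 0 < 1 - (2 : ℝ) ^ (-(α * (q - 1) - 1)) := by linarith
    positivity
  set c0 : ℝ := 2 ^ n * vb n * (8 + 12 * K0) * 2 ^ n with hc0
  set c1 : ℝ := ((b : ℝ) + 1) * c0 with hc1d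
  have hc00 : 0 < c0 := by positivity
  have hc1 : 0 < c1 := by positivity
  have hCp := Cp_nonneg (n := n) hK0 hK2 hc1 hε
  refine ⟨q * (c1 + (c1 + Cp n K0 K2 c1 ε) * G), by positivity, ?_⟩
  intro K hK δ hδ hδ1 ι _ a e w P ρ he hsep hpl
  classical
  rcases isEmpty_or_nonempty ι with hι | hι
  · have : ∀ x, mm δ a e x ^ q = 0 := by
      intro x
      unfold mm
      rw [Finset.univ_eq_empty, Finset.sum_empty, ENNReal.zero_rpow_of_pos (by linarith)]
    simp [this]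
  set N : ℝ := (Fintype.card ι : ℝ) with hN
  have hN1 : 1 ≤ N := by
    rw [hN]
    exact_mod_cast Fintype.card_pos
  have hN0 : 0 < N := by linarith
  set r0 : ℝ := N ^ (-(1 / (m : ℝ))) with hr0
  have hr00 : 0 < r0 := by positivity
  have hr01 : r0 ≤ 1 := Real.rpow_le_one_of_one_le_of_nonpos hN1 (by
    rw [neg_nonpos]; positivity)
  have hr0m : (1 / r0) ^ m = N := by
    rw [one_div, hr0, ← Real.rpow_neg hN0.le, neg_neg, ← Real.rpow_natCast, ← Real.rpow_mul hN0.le,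
      one_div, inv_mul_cancel₀ hm0.ne', Real.rpow_one]
  -- number of tubes
  have hδr0 : δ ≤ K0 * r0 := by
    obtain ⟨i0⟩ := hι
    have h1 := hcount δ hδ hδ1 e he hsep (e i0) (he i0) Finset.univ 1 hδ1.le
      (fun j _ => sn_le_one _ _)
    rw [Finset.card_univ, ← hN, ← hr0m] at h1
    have h2 : (1 / r0) ^ m ≤ (K0 * (1 / δ)) ^ m := by
      refine h1.trans ?_
      rw [mul_pow]
      gcongr
      exact le_self_pow₀ hK0 (by omega)
    have h3 := le_of_pow_le_pow_left₀ (by omega : m ≠ 0) (by positivity) h2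
    rw [div_le_iff₀ hr00] at h3
    have h4 : K0 * (1 / δ) * r0 = K0 * r0 / δ := by ring
    rw [h4, le_div_iff₀ hδ, one_mul] at h3
    exact h3
  -- number of scales
  have hex : ∃ L : ℕ, 1 ≤ 2 ^ L * r0 := by
    obtain ⟨L, hL⟩ := pow_unbounded_of_one_lt (1 / r0) (by norm_num : (1 : ℝ) < 2)
    refine ⟨L, ?_⟩
    rw [div_lt_iff₀ hr00] at hL
    exact hL.le
  set L := Nat.find hex with hL
  have hL1 : 1 ≤ 2 ^ L * r0 := Nat.find_spec hex
  have hL2 : ∀ l ≤ L, 2 ^ l * r0 ≤ 2 := by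
    intro l hl
    have h1 : 2 ^ l * r0 ≤ 2 ^ L * r0 := by
      gcongr
      norm_num
    refine h1.trans ?_
    rcases Nat.eq_zero_or_pos L with h0 | h0
    · rw [h0, pow_zero, one_mul]; linarith
    · have h2 := Nat.find_min hex (m := L - 1) (by omega)
      push Not at h2
      have h3 : (2 : ℝ) ^ L = 2 * 2 ^ (L - 1) := by
        rw [← pow_succ']
        congr 1
        omega
      rw [h3]
      nlinarith
  -- sets
  set T0 : ι → Set (E n) := fun i => ⋃ k : Fin b, {x | x ∈ tube δ (a i) (e i) ∧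
    ‖x - P i k‖ ≤ 2 * (r0 / 2)} with hT0
  set T : ι → ℕ → Set (E n) := fun i l => if l < L then
    {x | x ∈ tube δ (a i) (e i) ∧ ∀ k, 2 ^ l * r0 < ‖x - P i k‖} ∩
      ⋃ k : Fin b, {x | x ∈ tube δ (a i) (e i) ∧ ‖x - P i k‖ ≤ 2 * (2 ^ l * r0)}
    else {x | x ∈ tube δ (a i) (e i) ∧ ∀ k, 2 ^ l * r0 < ‖x - P i k‖} with hT
  have hTsub : ∀ i l, T i l ⊆ {x | x ∈ tube δ (a i) (e i) ∧ ∀ k, 2 ^ l * r0 < ‖x - P i k‖} := by
    intro i l
    simp only [hT]
    split_ifs
    · exact inter_subset_left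
    · exact subset_rfl
  have hm_near : ∀ (i : ι) (k : Fin b) (r : ℝ),
      MeasurableSet {x | x ∈ tube δ (a i) (e i) ∧ ‖x - P i k‖ ≤ r} := by
    intro i k r
    exact (tube_ms δ (a i) (e i)).inter (measurableSet_le
      (measurable_id.sub_const (P i k)).norm measurable_const)
  have hm_far : ∀ (i : ι) (r : ℝ),
      MeasurableSet {x | x ∈ tube δ (a i) (e i) ∧ ∀ k, r < ‖x - P i k‖} := by
    intro i r
    refine (tube_ms δ (a i) (e i)).inter ?_
    have h1 : {x : E n | ∀ k, r < ‖x - P i k‖} = ⋂ k, {x : E n | r < ‖x - P i k‖} := by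
      ext x; simp
    change MeasurableSet {x : E n | ∀ k, r < ‖x - P i k‖}
    rw [h1]
    exact MeasurableSet.iInter (fun k => measurableSet_lt measurable_const
      (measurable_id.sub_const (P i k)).norm)
  have hT0m : ∀ i, MeasurableSet (T0 i) := fun i =>
    MeasurableSet.iUnion (fun k => hm_near i k _)
  have hTm : ∀ i l, MeasurableSet (T i l) := by
    intro i l
    simp only [hT]
    split_ifs
    · exact (hm_far i _).inter (MeasurableSet.iUnion (fun k => hm_near i k _))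
    · exact hm_far i _
  have hvol_near : ∀ (i : ι) (k : Fin b) (r : ℝ), r0 / 2 ≤ r →
      volume {x | x ∈ tube δ (a i) (e i) ∧ ‖x - P i k‖ ≤ 2 * r} ≤
        ENNReal.ofReal (c0 * (δ ^ m * r)) := by
    intro i k r hr
    have h1 := vol_near (n := n) (by omega) hδ (a := a i) (he i) (P i k) (r := r) (c := 2 * K0)
      (by linarith) (by nlinarith)
    refine h1.trans (le_of_eq ?_)
    rw [hc0]
    congr 1
    ring
  have hvolU : ∀ (i : ι) (r : ℝ), r0 / 2 ≤ r →
      volume (⋃ k : Fin b, {x | x ∈ tube δ (a i) (e i) ∧ ‖x - P i k‖ ≤ 2 * r}) ≤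
        ENNReal.ofReal (c1 * (δ ^ m * r)) := by
    intro i r hr
    have hr' : 0 < r := by linarith
    calc _ ≤ ∑ k : Fin b, volume {x | x ∈ tube δ (a i) (e i) ∧ ‖x - P i k‖ ≤ 2 * r} :=
          measure_iUnion_fintype_le _ _
      _ ≤ ∑ _k : Fin b, ENNReal.ofReal (c0 * (δ ^ m * r)) :=
          Finset.sum_le_sum (fun k _ => hvol_near i k r hr)
      _ = ENNReal.ofReal (b * (c0 * (δ ^ m * r))) := by
          rw [Finset.sum_const, nsmul_eq_mul, Finset.card_univ, Fintype.card_fin,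
            ← ENNReal.ofReal_natCast, ← ENNReal.ofReal_mul (by positivity)]
      _ ≤ _ := by
          apply ENNReal.ofReal_le_ofReal
          have h3 : 0 ≤ c0 * (δ ^ m * r) := by positivity
          rw [hc1d]
          nlinarith
  have hvolT : ∀ i, ∀ l ≤ L, volume (T i l) ≤ ENNReal.ofReal (c1 * (δ ^ m * (2 ^ l * r0))) := by
    intro i l hl
    have h2l : r0 / 2 ≤ 2 ^ l * r0 := by
      have : (1 : ℝ) ≤ 2 ^ l := one_le_pow₀ (by norm_num)
      nlinarith
    rcases hl.lt_or_eq with h | h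
    · have : T i l ⊆ ⋃ k : Fin b, {x | x ∈ tube δ (a i) (e i) ∧ ‖x - P i k‖ ≤ 2 * (2 ^ l * r0)} := by
        simp only [hT, if_pos h]
        exact inter_subset_right
      exact (measure_mono this).trans (hvolU i _ h2l)
    · have h1 : T i l ⊆ tube δ (a i) (e i) := fun x hx => (hTsub i l hx).1
      refine (measure_mono h1).trans ((vol_tube (by omega) hδ hδ1 (he i)).trans ?_)
      apply ENNReal.ofReal_le_ofReal
      rw [← hm, h]
      have h2 : 2 ^ n * vb n * 4 ≤ c1 := by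
        rw [hc1d, hc0]
        have h3 : (0 : ℝ) < 2 ^ n * vb n := by positivity
        have h4 : (1 : ℝ) ≤ 2 ^ n := one_le_pow₀ (by norm_num)
        have h5 : (1 : ℝ) ≤ (b : ℝ) + 1 := by
          have : (0 : ℝ) ≤ b := Nat.cast_nonneg _
          linarith
        calc 2 ^ n * vb n * 4 = 1 * (2 ^ n * vb n * 4 * 1) := by ring
          _ ≤ ((b : ℝ) + 1) * (2 ^ n * vb n * (8 + 12 * K0) * 2 ^ n) := by
              gcongr
              linarith
      calc 2 ^ n * vb n * 4 * δ ^ m ≤ c1 * δ ^ m * 1 := by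
            rw [mul_one]; gcongr
        _ ≤ c1 * δ ^ m * (2 ^ L * r0) := by gcongr
        _ = _ := by ring
  -- the cover
  have hcov : ∀ i, ∀ x ∈ tube δ (a i) (e i), x ∈ T0 i ∨ ∃ l ∈ Finset.range (L + 1), x ∈ T i l := by
    intro i x hx
    by_cases hexl : ∃ l : ℕ, l ≤ L ∧ ∃ k, ‖x - P i k‖ ≤ 2 ^ l * r0
    · set l0 := Nat.find hexl with hl0
      obtain ⟨h1, k, hk⟩ := Nat.find_spec hexl
      rcases Nat.eq_zero_or_pos l0 with h0 | h0
      · left
        rw [← hl0, h0, pow_zero, one_mul] at hk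
        exact mem_iUnion.2 ⟨k, hx, by linarith⟩
      · right
        have h2 := Nat.find_min hexl (m := l0 - 1) (by omega)
        push Not at h2
        have h3 := h2 (by omega)
        refine ⟨l0 - 1, Finset.mem_range.2 (by omega), ?_⟩
        simp only [hT]
        rw [if_pos (by omega)]
        refine ⟨⟨hx, h3⟩, mem_iUnion.2 ⟨k, hx, ?_⟩⟩
        have h4 : (2 : ℝ) ^ l0 = 2 * 2 ^ (l0 - 1) := by
          rw [← pow_succ']
          congr 1
          omega
        rw [← hl0, h4] at hk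
        linarith
    · push Not at hexl
      right
      refine ⟨L, Finset.mem_range.2 (Nat.lt_succ_self L), ?_⟩
      simp only [hT]
      rw [if_neg (lt_irrefl L)]
      exact ⟨hx, hexl L le_rfl⟩
  have hpt : ∀ x, mm δ a e x ^ q ≤ ENNReal.ofReal q * ∑ i,
      ((T0 i).indicator (fun x => mr δ a e ρ i x ^ (q - 1)) x +
        ∑ l ∈ Finset.range (L + 1), (T i l).indicator (fun x => mr δ a e ρ i x ^ (q - 1)) x) := by
    intro x
    refine (rank_pt δ a e ρ hq x).trans ?_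
    gcongr with i _
    by_cases hx : x ∈ tube δ (a i) (e i)
    · rw [indicator_of_mem hx]
      rcases hcov i x hx with h | ⟨l, hl, h⟩
      · rw [indicator_of_mem h]
        exact le_self_add
      · refine le_trans ?_ le_add_self
        have := Finset.single_le_sum (s := Finset.range (L + 1))
          (f := fun l => (T i l).indicator (fun x => mr δ a e ρ i x ^ (q - 1)) x)
          (fun _ _ => zero_le) hl
        rw [indicator_of_mem h] at this
        exact this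
    · rw [indicator_of_notMem hx]
      exact zero_le
  have hF : ∀ i, Measurable (fun x => mr δ a e ρ i x ^ (q - 1)) := fun i =>
    (mr_ms δ a e ρ i).pow_const _
  have h0 : ∀ i, ∫⁻ x, (T0 i).indicator (fun x => mr δ a e ρ i x ^ (q - 1)) x ≤
      ENNReal.ofReal (c1 * δ ^ m * N ^ (q - 1 - 1 / (m : ℝ))) := by
    intro i
    rw [lintegral_indicator (hT0m i)]
    calc ∫⁻ x in T0 i, mr δ a e ρ i x ^ (q - 1)
        ≤ ∫⁻ _x in T0 i, ENNReal.ofReal (N ^ (q - 1)) := by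
          apply lintegral_mono
          intro x
          refine (ENNReal.rpow_le_rpow (mr_le δ a e ρ i x) (by linarith)).trans (le_of_eq ?_)
          rw [← ENNReal.ofReal_natCast, ENNReal.ofReal_rpow_of_pos hN0]
      _ = ENNReal.ofReal (N ^ (q - 1)) * volume (T0 i) := by
          rw [setLIntegral_const]
      _ ≤ ENNReal.ofReal (N ^ (q - 1)) * ENNReal.ofReal (c1 * (δ ^ m * (r0 / 2))) := by
          gcongr
          exact hvolU i (r0 / 2) le_rfl
      _ = ENNReal.ofReal (N ^ (q - 1) * (c1 * (δ ^ m * (r0 / 2)))) :=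
          (ENNReal.ofReal_mul (by positivity)).symm
      _ ≤ _ := by
          apply ENNReal.ofReal_le_ofReal
          have h2 : N ^ (q - 1 - 1 / (m : ℝ)) = N ^ (q - 1) * r0 := by
            rw [hr0, ← Real.rpow_add hN0]
            congr 1
          rw [h2]
          have h3 : 0 ≤ N ^ (q - 1) * (c1 * (δ ^ m * r0)) := by positivity
          nlinarith
  have hsc : ∀ i, ∀ l ∈ Finset.range (L + 1),
      ∫⁻ x, (T i l).indicator (fun x => mr δ a e ρ i x ^ (q - 1)) x ≤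
      ENNReal.ofReal ((c1 + Cp n K0 K2 c1 ε) * K ^ m * δ ^ m * ((2 ^ l * N ^ (-(1 / (m : ℝ)))) *
        ((2 ^ l * N ^ (-(1 / (m : ℝ)))) ^ (-α) * N ^ (1 - α / (m : ℝ))) ^ (q - 1))) := by
    intro i l hl
    have hl' : l ≤ L := Nat.lt_succ_iff.1 (Finset.mem_range.1 hl)
    rw [lintegral_indicator (hTm i l)]
    have h2l : (1 : ℝ) ≤ 2 ^ l := one_le_pow₀ (by norm_num)
    have hr : 0 < 2 ^ l * r0 := by positivity
    have h1 := shell (n := n) (by omega) hK0 hK2 hc1 hε hε1 hq hq2 hcount hcount2 hδ hδ1 a e he hsep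
      (N := N) le_rfl ρ i (w i) hK hr (by
        rw [← hm]
        have h3 : 1 / (2 ^ l * r0) ≤ 1 / r0 := by
          apply one_div_le_one_div_of_le hr00
          nlinarith
        calc (1 / (2 ^ l * r0)) ^ m ≤ (1 / r0) ^ m := by gcongr
          _ = N := hr0m) (hL2 l hl') (fun x hx => (hTsub i l hx).1) (hvolT i l hl')
      (fun j hj hne => by
        obtain ⟨x, hx1, hx2⟩ := hne
        have hx3 := hTsub i l hx2
        obtain ⟨k, s, t, hst⟩ := hpl i j hj x ⟨hx3.1, hx1⟩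
        refine ⟨s, t, ?_⟩
        have h4 := hx3.2 k
        rw [le_div_iff₀ hr]
        calc ‖e j - s • e i - t • w i‖ * (2 ^ l * r0) ≤ ‖e j - s • e i - t • w i‖ * ‖x - P i k‖ := by
              gcongr
          _ ≤ K * δ := by rw [mul_comm]; exact hst)
    rw [← hm, lam_eq (by omega) hN0 hr] at h1
    refine h1.trans (le_of_eq ?_)
    rw [hr0, hα]
    congr 1
    ring
  calc ∫⁻ x, mm δ a e x ^ q
      ≤ ∫⁻ x, ENNReal.ofReal q * ∑ i, ((T0 i).indicator (fun x => mr δ a e ρ i x ^ (q - 1)) x +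
        ∑ l ∈ Finset.range (L + 1), (T i l).indicator (fun x => mr δ a e ρ i x ^ (q - 1)) x) :=
        lintegral_mono hpt
    _ = ENNReal.ofReal q * ∑ i, ((∫⁻ x, (T0 i).indicator (fun x => mr δ a e ρ i x ^ (q - 1)) x) +
        ∑ l ∈ Finset.range (L + 1), ∫⁻ x, (T i l).indicator (fun x => mr δ a e ρ i x ^ (q - 1)) x) := by
        have t1 : ∀ i, Measurable ((T0 i).indicator (fun x => mr δ a e ρ i x ^ (q - 1))) :=
          fun i => (hF i).indicator (hT0m i)
        have t2 : ∀ i l, Measurable ((T i l).indicator (fun x => mr δ a e ρ i x ^ (q - 1))) :=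
          fun i l => (hF i).indicator (hTm i l)
        have t3 : ∀ i, Measurable (fun x => (T0 i).indicator (fun x => mr δ a e ρ i x ^ (q - 1)) x +
            ∑ l ∈ Finset.range (L + 1), (T i l).indicator (fun x => mr δ a e ρ i x ^ (q - 1)) x) :=
          fun i => (t1 i).add (Finset.measurable_fun_sum _ (fun l _ => t2 i l))
        rw [lintegral_const_mul _ (Finset.measurable_fun_sum _ (fun i _ => t3 i)),
          lintegral_finsetSum _ (fun i _ => t3 i)]
        congr 1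
        apply Finset.sum_congr rfl
        intro i _
        rw [lintegral_add_left (t1 i), lintegral_finsetSum _ (fun l _ => t2 i l)]
    _ ≤ ENNReal.ofReal q * ∑ _i : ι, (ENNReal.ofReal (c1 * δ ^ m * N ^ (q - 1 - 1 / (m : ℝ))) +
        ∑ l ∈ Finset.range (L + 1), ENNReal.ofReal ((c1 + Cp n K0 K2 c1 ε) * K ^ m * δ ^ m *
        ((2 ^ l * N ^ (-(1 / (m : ℝ)))) *
        ((2 ^ l * N ^ (-(1 / (m : ℝ)))) ^ (-α) * N ^ (1 - α / (m : ℝ))) ^ (q - 1)))) := by
        gcongr with i _ l hl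
        · exact h0 i
        · exact hsc i l hl
    _ = ENNReal.ofReal (q * (N * (c1 * δ ^ m * N ^ (q - 1 - 1 / (m : ℝ)) +
        (c1 + Cp n K0 K2 c1 ε) * K ^ m * δ ^ m * ∑ l ∈ Finset.range (L + 1),
        ((2 ^ l * N ^ (-(1 / (m : ℝ)))) *
        ((2 ^ l * N ^ (-(1 / (m : ℝ)))) ^ (-α) * N ^ (1 - α / (m : ℝ))) ^ (q - 1))))) := by
        rw [← ENNReal.ofReal_sum_of_nonneg (fun l _ => by positivity),
          ← ENNReal.ofReal_add (by positivity) (Finset.sum_nonneg (fun l _ => by positivity)),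
          Finset.sum_const, nsmul_eq_mul, Finset.card_univ, ← ENNReal.ofReal_natCast,
          ← ENNReal.ofReal_mul (by positivity), ← ENNReal.ofReal_mul (by positivity),
          ← Finset.mul_sum]
    _ ≤ _ := by
        apply ENNReal.ofReal_le_ofReal
        have hss := scale_sum (N := N) (α := α) (q := q) (m := (m : ℝ)) hN1 hm0 hε2 (L + 1)
        have h5 : N ^ (q - 1 / (m : ℝ)) = N * N ^ (q - 1 - 1 / (m : ℝ)) := by
          nth_rewrite 2 [← Real.rpow_one N]
          rw [← Real.rpow_add hN0]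
          congr 1
          ring
        have hKn : 1 ≤ K ^ m := one_le_pow₀ hK
        rw [h5]
        set Y := N ^ (q - 1 - 1 / (m : ℝ)) with hY
        have hY0 : 0 < Y := by positivity
        calc q * (N * (c1 * δ ^ m * Y + (c1 + Cp n K0 K2 c1 ε) * K ^ m * δ ^ m *
              ∑ l ∈ Finset.range (L + 1), ((2 ^ l * N ^ (-(1 / (m : ℝ)))) *
              ((2 ^ l * N ^ (-(1 / (m : ℝ)))) ^ (-α) * N ^ (1 - α / (m : ℝ))) ^ (q - 1))))
            ≤ q * (N * (c1 * 1 * δ ^ m * Y + (c1 + Cp n K0 K2 c1 ε) * K ^ m * δ ^ m * (G * Y))) := by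
              rw [mul_one]
              gcongr
          _ ≤ q * (N * (c1 * K ^ m * δ ^ m * Y + (c1 + Cp n K0 K2 c1 ε) * K ^ m * δ ^ m * (G * Y))) := by
              gcongr
          _ = _ := by ring

end Pool.Agent.X160.Pl
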