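import Pool.Agent.X160.Pl.Geo
set_option autoImplicit false

/-!
# Sums
-/

open MeasureTheory Set Metric
open scoped ENNReal NNReal

namespace Pool.Agent.X160.Pl

open Pool.Agent.TH705.RR

theorem nat_le_rpow {ε : ℝ} (hε : 0 < ε) {X : ℝ} (L : ℕ) (h : (2 : ℝ) ^ L ≤ 2 * X) :
    (L : ℝ) ≤ 2 ^ ε / (2 ^ ε - 1) * X ^ ε := by
  have h0 : (0 : ℝ) < 2 ^ L := by positivity
  have hX : 0 < X := by linarith
  have h1 : (1 : ℝ) < 2 ^ ε := Real.one_lt_rpow (by norm_num) hε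
  have h2 : 1 + (L : ℝ) * (2 ^ ε - 1) ≤ (1 + (2 ^ ε - 1)) ^ L :=
    one_add_mul_le_pow (by linarith) L
  have h3 : (1 + ((2 : ℝ) ^ ε - 1)) ^ L = (2 ^ L : ℝ) ^ ε := by
    rw [add_sub_cancel, ← Real.rpow_natCast, ← Real.rpow_mul (by norm_num), ← Real.rpow_natCast 2 L,
      ← Real.rpow_mul (by norm_num)]
    congr 1
    ring
  have h4 : ((2 : ℝ) ^ L) ^ ε ≤ (2 * X) ^ ε := Real.rpow_le_rpow h0.le h hε.le
  rw [Real.mul_rpow (by norm_num) hX.le] at h4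
  rw [div_mul_eq_mul_div, le_div_iff₀ (by linarith)]
  linarith

theorem harm_sum {ι : Type*} (J : Finset ι) (z : ι → ℝ) {K B N ε : ℝ} (hK : 0 ≤ K) (hB : 0 < B)
    (hBN : B ≤ N) (hε : 0 < ε) (hJ : (J.card : ℝ) ≤ N) (hz : ∀ j ∈ J, 1 ≤ z j)
    (hc : ∀ t, 1 ≤ t → ((J.filter (fun j => z j ≤ t)).card : ℝ) ≤ K * B * t) :
    ∑ j ∈ J, (z j)⁻¹ ≤ (1 + 2 * K * (2 ^ ε / (2 ^ ε - 1))) * (B * (N / B) ^ ε) := by
  have hN0 : 0 < N := by linarith
  have hNB : 1 ≤ N / B := by rwa [le_div_iff₀ hB, one_mul]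
  have h21 : (1 : ℝ) < 2 ^ ε := Real.one_lt_rpow (by norm_num) hε
  obtain ⟨L, hL1, hL2⟩ : ∃ L : ℕ, (2 : ℝ) ^ L ≤ 2 * (N / B) ∧ N / B ≤ 2 ^ L := by
    obtain ⟨k, hk1, hk2⟩ := exists_nat_pow_near hNB (by norm_num : (1 : ℝ) < 2)
    refine ⟨k + 1, ?_, hk2.le⟩
    rw [pow_succ]
    linarith
  have hpt : ∀ j ∈ J, (z j)⁻¹ ≤ (2 ^ L : ℝ)⁻¹ +
      ∑ k ∈ Finset.range L, if z j ≤ 2 ^ (k + 1) then (2 ^ k : ℝ)⁻¹ else 0 := by
    intro j hj
    have hz1 := hz j hj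
    have hs0 : 0 ≤ ∑ k ∈ Finset.range L, if z j ≤ 2 ^ (k + 1) then (2 ^ k : ℝ)⁻¹ else 0 := by
      apply Finset.sum_nonneg
      intro k _
      split_ifs
      · positivity
      · exact le_rfl
    obtain ⟨k, hk1, hk2⟩ := exists_nat_pow_near hz1 (by norm_num : (1 : ℝ) < 2)
    by_cases hkL : k < L
    · have h7 := Finset.single_le_sum (s := Finset.range L)
          (f := fun k => if z j ≤ 2 ^ (k + 1) then (2 ^ k : ℝ)⁻¹ else 0)
          (fun k _ => by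
            split_ifs
            · positivity
            · exact le_rfl) (Finset.mem_range.2 hkL)
      simp only [hk2.le, if_true] at h7
      have h8 : (z j)⁻¹ ≤ (2 ^ k : ℝ)⁻¹ := by
        gcongr
      have h9 : (0:ℝ) ≤ (2 ^ L : ℝ)⁻¹ := by positivity
      linarith
    · push Not at hkL
      have h8 : (z j)⁻¹ ≤ (2 ^ L : ℝ)⁻¹ := by
        have : (2 : ℝ) ^ L ≤ 2 ^ k := pow_le_pow_right₀ (by norm_num) hkL
        gcongr
        linarith
      linarith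
  have hLb := nat_le_rpow hε L hL1
  have hX0 : 0 ≤ (N / B) ^ ε := by positivity
  have hX1 : 1 ≤ (N / B) ^ ε := Real.one_le_rpow hNB hε.le
  calc ∑ j ∈ J, (z j)⁻¹
      ≤ ∑ j ∈ J, ((2 ^ L : ℝ)⁻¹ + ∑ k ∈ Finset.range L, if z j ≤ 2 ^ (k + 1) then (2 ^ k : ℝ)⁻¹ else 0) :=
        Finset.sum_le_sum hpt
    _ = J.card * (2 ^ L : ℝ)⁻¹ + ∑ k ∈ Finset.range L, (2 ^ k : ℝ)⁻¹ *
          ((J.filter (fun j => z j ≤ 2 ^ (k + 1))).card : ℝ) := by
        rw [Finset.sum_add_distrib, Finset.sum_const, nsmul_eq_mul, Finset.sum_comm]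
        congr 1
        apply Finset.sum_congr rfl
        intro k _
        rw [← Finset.sum_filter, Finset.sum_const, nsmul_eq_mul, mul_comm]
    _ ≤ N * (2 ^ L : ℝ)⁻¹ + ∑ k ∈ Finset.range L, (2 ^ k : ℝ)⁻¹ * (K * B * 2 ^ (k + 1)) := by
        gcongr with k hk
        exact hc _ (one_le_pow₀ (by norm_num))
    _ = N * (2 ^ L : ℝ)⁻¹ + L * (2 * K * B) := by
        congr 1
        rw [Finset.sum_congr rfl (fun k _ => show (2 ^ k : ℝ)⁻¹ * (K * B * 2 ^ (k + 1)) = 2 * K * B by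
          rw [pow_succ]; field_simp), Finset.sum_const, nsmul_eq_mul, Finset.card_range]
    _ ≤ B + (2 ^ ε / (2 ^ ε - 1) * (N / B) ^ ε) * (2 * K * B) := by
        gcongr
        rw [← div_eq_mul_inv, div_le_iff₀ (by positivity)]
        rw [div_le_iff₀ hB] at hL2
        linarith
    _ ≤ B * (N / B) ^ ε + (2 ^ ε / (2 ^ ε - 1) * (N / B) ^ ε) * (2 * K * B) := by
        gcongr
        nlinarith
    _ = _ := by ring

theorem step_pow {p : ℝ} (hp : 0 ≤ p) (N : ℕ) :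
    ((N : ℝ) + 1) ^ (p + 1) ≤ (N : ℝ) ^ (p + 1) + (p + 1) * ((N : ℝ) + 1) ^ p := by
  have hN1 : (0 : ℝ) < (N : ℝ) + 1 := by positivity
  have hs : (-1 : ℝ) ≤ -(1 / ((N : ℝ) + 1)) := by
    rw [neg_le_neg_iff, div_le_iff₀ hN1]
    have : (0 : ℝ) ≤ N := Nat.cast_nonneg _
    linarith
  have h1 := one_add_mul_self_le_rpow_one_add hs (by linarith : 1 ≤ p + 1)
  have h2 : (1 + -(1 / ((N : ℝ) + 1))) = N / ((N : ℝ) + 1) := by
    field_simp
    ring
  rw [h2, Real.div_rpow (Nat.cast_nonneg _) hN1.le, le_div_iff₀ (by positivity)] at h1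
  have h3 : ((N : ℝ) + 1) ^ (p + 1) = ((N : ℝ) + 1) ^ p * ((N : ℝ) + 1) := by
    rw [Real.rpow_add hN1, Real.rpow_one]
  have h4 : (1 + (p + 1) * -(1 / ((N : ℝ) + 1))) * ((N : ℝ) + 1) ^ (p + 1) =
      ((N : ℝ) + 1) ^ (p + 1) - (p + 1) * ((N : ℝ) + 1) ^ p := by
    rw [h3]
    field_simp
    ring
  rw [h4] at h1
  linarith

theorem rank_sum {ι : Type*} [DecidableEq ι] {p : ℝ} (hp : 0 ≤ p) (ρ : ι → ℝ) (S : Finset ι) :
    (S.card : ℝ) ^ (p + 1) ≤ (p + 1) * ∑ i ∈ S, ((S.filter (fun j => ρ j ≤ ρ i)).card : ℝ) ^ p := by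
  induction h : S.card generalizing S with
  | zero =>
      rw [Finset.card_eq_zero] at h
      rw [h, Finset.sum_empty, mul_zero, Nat.cast_zero, Real.zero_rpow (by linarith)]
  | succ N ih =>
      have hne : S.Nonempty := by
        rw [← Finset.card_pos, h]; exact Nat.succ_pos N
      obtain ⟨i0, hi0, hmax⟩ := S.exists_max_image ρ hne
      have hcard : (S.erase i0).card = N := by
        rw [Finset.card_erase_of_mem hi0, h]; rfl
      have h1 := ih (S.erase i0) hcard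
      have h2 : S.filter (fun j => ρ j ≤ ρ i0) = S := Finset.filter_true_of_mem hmax
      have h3 : ∑ i ∈ S.erase i0, (((S.erase i0).filter (fun j => ρ j ≤ ρ i)).card : ℝ) ^ p ≤
          ∑ i ∈ S.erase i0, ((S.filter (fun j => ρ j ≤ ρ i)).card : ℝ) ^ p := by
        apply Finset.sum_le_sum
        intro i _
        apply Real.rpow_le_rpow (Nat.cast_nonneg _) _ hp
        exact_mod_cast Finset.card_le_card (Finset.filter_subset_filter _ (Finset.erase_subset _ _))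
      rw [← Finset.add_sum_erase S _ hi0, h2, h]
      push_cast
      have h4 := step_pow hp N
      have hp1 : 0 < p + 1 := by linarith
      rw [mul_add]
      have h5 := mul_le_mul_of_nonneg_left h3 hp1.le
      linarith

end Pool.Agent.X160.Pl
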